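import Mathlib

set_option autoImplicit false
set_option linter.unusedSectionVars false

open Matrix Finset

namespace Pool.Agent.Helper76.Sel

variable {n ι : Type} [Fintype n] [DecidableEq n] [Fintype ι]

/-- the quadratic form of a matrix -/
def qf (S : Matrix n n ℝ) (v : n → ℝ) : ℝ := ∑ b, ∑ c, v b * v c * S b c

/-- `tr (g S gᵀ)` -/
def TT (S : Matrix n n ℝ) (g : Matrix n n ℝ) : ℝ := ∑ a, qf S (g a)

/-- `(1 + t v vᵀ) g` -/
def upd (g : Matrix n n ℝ) (v : n → ℝ) (t : ℝ) : Matrix n n ℝ :=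
  Matrix.of fun a b => g a b + t * v a * (∑ c, v c * g c b)

theorem continuous_TT (S : Matrix n n ℝ) : Continuous (TT S) := by
  unfold TT qf
  fun_prop

theorem qf_smul (S : Matrix n n ℝ) (c : ℝ) (v : n → ℝ) : qf S (c • v) = c ^ 2 * qf S v := by
  unfold qf
  simp only [Finset.mul_sum, Pi.smul_apply, smul_eq_mul]
  refine Finset.sum_congr rfl fun b _ => Finset.sum_congr rfl fun c _ => by ring

theorem TT_smul (S : Matrix n n ℝ) (c : ℝ) (g : Matrix n n ℝ) : TT S (c • g) = c ^ 2 * TT S g := by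
  unfold TT
  rw [Finset.mul_sum]
  refine Finset.sum_congr rfl fun a _ => ?_
  exact qf_smul S c (g a)

/-- expansion of the form along `g + t v wᵀ`, `w = vᵀ g`. -/
theorem TT_rank_one (S : Matrix n n ℝ) (hS : ∀ b c, S b c = S c b) (g : Matrix n n ℝ) (v : n → ℝ)
    (hv : ∑ a, v a ^ 2 = 1) (t : ℝ) :
    TT S (upd g v t) =
      TT S g + (2 * t + t ^ 2) * qf S (fun b => ∑ c, v c * g c b) := by
  set w : n → ℝ := fun b => ∑ c, v c * g c b with hw
  have h1 : ∀ a, qf S (fun b => g a b + t * v a * w b) =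
      qf S (g a) + 2 * t * v a * (∑ b, ∑ c, g a b * w c * S b c) + t ^ 2 * v a ^ 2 * qf S w := by
    intro a
    unfold qf
    have h2 : ∑ b, ∑ c, w b * g a c * S b c = ∑ b, ∑ c, g a b * w c * S b c := by
      rw [Finset.sum_comm]
      refine Finset.sum_congr rfl fun b _ => Finset.sum_congr rfl fun c _ => ?_
      rw [hS c b]; ring
    have h3 : ∑ b, ∑ c, (g a b + t * v a * w b) * (g a c + t * v a * w c) * S b c
        = (∑ b, ∑ c, g a b * g a c * S b c) + t * v a * (∑ b, ∑ c, g a b * w c * S b c)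
          + t * v a * (∑ b, ∑ c, w b * g a c * S b c)
          + t ^ 2 * v a ^ 2 * (∑ b, ∑ c, w b * w c * S b c) := by
      simp only [Finset.mul_sum, ← Finset.sum_add_distrib]
      refine Finset.sum_congr rfl fun b _ => Finset.sum_congr rfl fun c _ => by ring
    rw [h3, h2]; ring
  unfold TT
  have h0 : ∀ a, qf S (upd g v t a) = qf S (fun b => g a b + t * v a * w b) := fun a => rfl
  rw [Finset.sum_congr rfl fun a _ => h0 a, Finset.sum_congr rfl fun a _ => h1 a,
    Finset.sum_add_distrib, Finset.sum_add_distrib]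
  have h4 : ∑ a, 2 * t * v a * (∑ b, ∑ c, g a b * w c * S b c) = 2 * t * qf S w := by
    have : ∀ a, 2 * t * v a * (∑ b, ∑ c, g a b * w c * S b c)
        = 2 * t * (∑ b, ∑ c, (v a * g a b) * w c * S b c) := by
      intro a
      simp only [Finset.mul_sum]
      refine Finset.sum_congr rfl fun b _ => Finset.sum_congr rfl fun c _ => by ring
    rw [Finset.sum_congr rfl fun a _ => this a, ← Finset.mul_sum]
    congr 1
    unfold qf
    rw [Finset.sum_comm]
    refine Finset.sum_congr rfl fun b _ => ?_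
    rw [Finset.sum_comm]
    refine Finset.sum_congr rfl fun c _ => ?_
    rw [hw]
    simp only [Finset.sum_mul]
  have h5 : ∑ a, t ^ 2 * v a ^ 2 * qf S w = t ^ 2 * qf S w := by
    rw [← Finset.sum_mul, ← Finset.mul_sum, hv]; ring
  rw [h4, h5]; ring

theorem det_rank_one (g : Matrix n n ℝ) (v : n → ℝ) (hv : ∑ a, v a ^ 2 = 1) (t : ℝ) :
    Matrix.det (upd g v t) = (1 + t) * Matrix.det g := by
  have h1 : upd g v t = (1 + replicateCol Unit (t • v) * replicateRow Unit v) * g := by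
    ext a b
    rw [Matrix.add_mul, Matrix.one_mul, Matrix.add_apply, Matrix.mul_assoc]
    unfold upd
    rw [Matrix.of_apply]
    congr 1
    simp only [Matrix.mul_apply, replicateCol_apply, replicateRow_apply, Finset.univ_unique,
      Finset.sum_singleton, Pi.smul_apply, smul_eq_mul]
  have h2 := Matrix.det_one_add_replicateCol_mul_replicateRow (ι := Unit) (t • v) v
  rw [h1, Matrix.det_mul, h2]
  congr 1
  simp only [dotProduct, Pi.smul_apply, smul_eq_mul]
  congr 1
  calc ∑ x, v x * (t * v x) = t * ∑ x, v x ^ 2 := by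
        rw [Finset.mul_sum]; refine Finset.sum_congr rfl fun c _ => by ring
    _ = t := by rw [hv, mul_one]

theorem isotropic [Nonempty n] (S : ι → Matrix n n ℝ) (hS : ∀ k b c, S k b c = S k c b)
    (hpos : ∀ k v, v ≠ 0 → 0 < qf (S k) v) (m : ℕ) (hmpos : 0 < m) (hm : Fintype.card ι = Fintype.card n * m) :
    ∃ g : Matrix n n ℝ, g.det ≠ 0 ∧ ∀ v : n → ℝ, (∑ a, v a ^ 2 = 1) →
      ∑ k, qf (S k) (fun b => ∑ c, v c * g c b) / TT (S k) g = m := by
  have hTpos : ∀ k (g : Matrix n n ℝ), g ≠ 0 → 0 < TT (S k) g := by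
    intro k g hg
    have : ∃ a, g a ≠ 0 := by
      by_contra h
      push Not at h
      exact hg (funext h)
    obtain ⟨a, ha⟩ := this
    unfold TT
    refine Finset.sum_pos' (fun b _ => ?_) ⟨a, Finset.mem_univ _, hpos k _ ha⟩
    by_cases hb : g b = 0
    · rw [hb]; simp [qf]
    · exact (hpos k _ hb).le
  set R : Matrix n n ℝ → ℝ := fun g => g.det ^ (2 * m) / ∏ k, TT (S k) g with hR
  have hom : ∀ (c : ℝ) (g : Matrix n n ℝ), c ≠ 0 → R (c • g) = R g := by
    intro c g hc
    simp only [hR]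
    rw [Matrix.det_smul, Finset.prod_congr rfl fun k _ => TT_smul (S k) c g, Finset.prod_mul_distrib,
      Finset.prod_const, Finset.card_univ, hm, mul_pow, ← pow_mul, ← pow_mul]
    have : Fintype.card n * (2 * m) = 2 * (Fintype.card n * m) := by ring
    rw [this]
    rw [mul_div_mul_left _ _ (pow_ne_zero _ hc)]
  set Sph : Set (Matrix n n ℝ) := {g | ∑ a, ∑ b, g a b ^ 2 = 1} with hSph
  have hne0 : ∀ g ∈ Sph, g ≠ 0 := by
    rintro g hg rfl
    simp [hSph] at hg
  have hcomp : IsCompact Sph := by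
    have h1 : IsCompact (Set.pi Set.univ (fun _ : n => Set.pi Set.univ (fun _ : n => Set.Icc (-1 : ℝ) 1))) :=
      isCompact_univ_pi fun _ => isCompact_univ_pi fun _ => isCompact_Icc
    refine h1.of_isClosed_subset ?_ ?_
    · exact isClosed_eq (by fun_prop) continuous_const
    · intro g hg a _ b _
      have h2 : g a b ^ 2 ≤ 1 := by
        have hg' : ∑ a, ∑ b, g a b ^ 2 = 1 := hg
        rw [← hg']
        calc g a b ^ 2 ≤ ∑ b, g a b ^ 2 :=
              Finset.single_le_sum (f := fun b => g a b ^ 2) (fun i _ => sq_nonneg _) (Finset.mem_univ b)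
          _ ≤ _ := Finset.single_le_sum (f := fun a => ∑ b, g a b ^ 2)
              (fun i _ => Finset.sum_nonneg fun j _ => sq_nonneg _) (Finset.mem_univ a)
      exact abs_le.mp (by nlinarith [abs_nonneg (g a b), sq_abs (g a b)])
  have hcont : ContinuousOn R Sph := by
    refine ContinuousOn.div ?_ ?_ ?_
    · exact (Continuous.pow (Continuous.matrix_det continuous_id) _).continuousOn
    · exact (continuous_finsetProd _ fun k _ => continuous_TT (S k)).continuousOn
    · intro g hg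
      exact (Finset.prod_pos fun k _ => hTpos k g (hne0 g hg)).ne'
  -- normalisation of nonzero matrices
  have hnorm : ∀ g : Matrix n n ℝ, g ≠ 0 → ∃ c : ℝ, c ≠ 0 ∧ c • g ∈ Sph := by
    intro g hg
    have hs : 0 < ∑ a, ∑ b, g a b ^ 2 := by
      have : ∃ a b, g a b ≠ 0 := by
        by_contra h
        push Not at h
        exact hg (by ext a b; exact h a b)
      obtain ⟨a, b, hab⟩ := this
      refine Finset.sum_pos' (fun i _ => Finset.sum_nonneg fun j _ => sq_nonneg _) ⟨a, Finset.mem_univ _, ?_⟩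
      exact Finset.sum_pos' (fun j _ => sq_nonneg _) ⟨b, Finset.mem_univ _, by positivity⟩
    refine ⟨(Real.sqrt (∑ a, ∑ b, g a b ^ 2))⁻¹, by positivity, ?_⟩
    have h3 : ∀ a b, ((Real.sqrt (∑ a, ∑ b, g a b ^ 2))⁻¹ • g) a b ^ 2
        = (∑ a, ∑ b, g a b ^ 2)⁻¹ * g a b ^ 2 := by
      intro a b
      rw [Matrix.smul_apply, smul_eq_mul, mul_pow, inv_pow, Real.sq_sqrt hs.le]
    show ∑ a, ∑ b, _ ^ 2 = 1
    rw [Finset.sum_congr rfl fun a _ => Finset.sum_congr rfl fun b _ => h3 a b]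
    simp only [← Finset.mul_sum]
    exact inv_mul_cancel₀ hs.ne'
  obtain ⟨c1, hc1, hc1'⟩ := hnorm (1 : Matrix n n ℝ) one_ne_zero
  obtain ⟨g, hg, hmax⟩ := hcomp.exists_isMaxOn ⟨_, hc1'⟩ hcont
  have hmax' : ∀ h : Matrix n n ℝ, h ≠ 0 → R h ≤ R g := by
    intro h hh
    obtain ⟨c, hc, hc'⟩ := hnorm h hh
    rw [← hom c h hc]
    exact hmax hc'
  have hR1 : 0 < R 1 := by
    simp only [hR]
    rw [Matrix.det_one, one_pow]
    exact div_pos one_pos (Finset.prod_pos fun k _ => hTpos k 1 one_ne_zero)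
  have hRg : 0 < R g := lt_of_lt_of_le hR1 (hmax' 1 one_ne_zero)
  have hdet : g.det ≠ 0 := by
    intro h0
    have : R g = 0 := by
      simp only [hR]
      rw [h0, zero_pow (by omega), zero_div]
    linarith
  have hg0 : g ≠ 0 := hne0 g hg
  refine ⟨g, hdet, ?_⟩
  intro v hv
  set w : n → ℝ := fun b => ∑ c, v c * g c b with hw
  set μ : ι → ℝ := fun k => qf (S k) w / TT (S k) g with hμ
  have hT0 : ∀ k, 0 < TT (S k) g := fun k => hTpos k g hg0
  have key : ∀ t : ℝ, t ∈ Set.Ioo (-1 : ℝ) 1 →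
      0 ≤ ∏ k, (1 + (2 * t + t ^ 2) * μ k) - (1 + t) ^ (2 * m) := by
    intro t ht
    have hne : upd g v t ≠ 0 := by
      intro h
      have h2 : (upd g v t).det = 0 := by rw [h]; exact Matrix.det_zero
      rw [det_rank_one g v hv t] at h2
      rcases mul_eq_zero.mp h2 with h3 | h3
      · have := ht.1; linarith
      · exact hdet h3
    have h1 := hmax' _ hne
    simp only [hR] at h1
    rw [det_rank_one g v hv t, mul_pow] at h1
    have h2 : ∀ k, TT (S k) (upd g v t) = TT (S k) g * (1 + (2 * t + t ^ 2) * μ k) := by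
      intro k
      rw [TT_rank_one (S k) (hS k) g v hv t]
      simp only [hμ]
      field_simp [(hT0 k).ne']
      try ring
    have h3 : 0 < ∏ k, TT (S k) (upd g v t) := Finset.prod_pos fun k _ => hTpos k _ hne
    have h4 : 0 < ∏ k, TT (S k) g := Finset.prod_pos fun k _ => hT0 k
    have h5 : ∏ k, TT (S k) (upd g v t) = (∏ k, TT (S k) g) * ∏ k, (1 + (2 * t + t ^ 2) * μ k) := by
      rw [← Finset.prod_mul_distrib]
      exact Finset.prod_congr rfl fun k _ => h2 k
    have h6 : 0 < g.det ^ (2 * m) := by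
      rw [pow_mul]
      exact pow_pos (by positivity) _
    rw [div_le_div_iff₀ h3 h4, h5] at h1
    have h7 : (1 + t) ^ (2 * m) * (g.det ^ (2 * m) * ∏ k, TT (S k) g) ≤
        (∏ k, (1 + (2 * t + t ^ 2) * μ k)) * (g.det ^ (2 * m) * ∏ k, TT (S k) g) := by
      nlinarith [h1]
    have h8 := le_of_mul_le_mul_right h7 (mul_pos h6 h4)
    linarith
  have hder : HasDerivAt (fun t : ℝ => ∏ k, (1 + (2 * t + t ^ 2) * μ k) - (1 + t) ^ (2 * m))
      (∑ k, 2 * μ k - 2 * m) 0 := by
    have h1 : ∀ k ∈ (Finset.univ : Finset ι), HasDerivAt (fun t : ℝ => 1 + (2 * t + t ^ 2) * μ k) (2 * μ k) 0 := by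
      intro k _
      have h2 : HasDerivAt (fun t : ℝ => 2 * t + t ^ 2) (2 * 1 + (2 : ℕ) * (0 : ℝ) ^ (2 - 1) * 1) 0 :=
        ((hasDerivAt_id (0 : ℝ)).const_mul 2).add ((hasDerivAt_id (0 : ℝ)).pow 2)
      have h3 := (h2.mul_const (μ k)).const_add 1
      exact h3.congr_deriv (by norm_num)
    classical
    have h4 := HasDerivAt.fun_finsetProd h1
    have h5 : HasDerivAt (fun t : ℝ => (1 + t) ^ (2 * m)) (((2 * m : ℕ) : ℝ) * (1 + 0) ^ (2 * m - 1) * 1) 0 :=
      ((hasDerivAt_id (0 : ℝ)).const_add 1).pow (2 * m)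
    have h6 := h4.sub h5
    refine h6.congr_deriv ?_
    have h7 : ∀ k ∈ (Finset.univ : Finset ι), (∏ j ∈ Finset.univ.erase k, (1 + (2 * (0 : ℝ) + 0 ^ 2) * μ j)) • (2 * μ k) = 2 * μ k := by
      intro k _
      rw [Finset.prod_eq_one (fun j _ => by norm_num)]
      simp
    rw [Finset.sum_congr rfl h7]
    push_cast
    ring
  have hmin : IsLocalMin (fun t : ℝ => ∏ k, (1 + (2 * t + t ^ 2) * μ k) - (1 + t) ^ (2 * m)) 0 := by
    have h1 : Set.Ioo (-1 : ℝ) 1 ∈ nhds (0 : ℝ) := Ioo_mem_nhds (by norm_num) (by norm_num)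
    filter_upwards [h1] with t ht
    have h2 : ∏ k, (1 + (2 * (0:ℝ) + 0 ^ 2) * μ k) - (1 + 0) ^ (2 * m) = 0 := by
      rw [Finset.prod_eq_one (fun j _ => by norm_num)]
      simp
    rw [h2]
    exact key t ht
  have hz := hmin.hasDerivAt_eq_zero hder
  rw [← Finset.mul_sum] at hz
  have : ∑ k, μ k = m := by linarith
  exact this

end Pool.Agent.Helper76.Sel
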