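import Mathlib

set_option autoImplicit false

open Module

namespace Pool.Agent.Helper76.Sel

section
variable {ι : Type} [DecidableEq ι] {V : Type} [AddCommGroup V] [Module ℝ V]

theorem combine (U : ι → Submodule ℝ V) (S : Finset ι) (P : Submodule ℝ V)
    (f : {i // i ∈ S} → V) (hf : ∀ i : {i // i ∈ S}, f i ∈ U i) (hfP : ∀ i, f i ∈ P) (hfi : LinearIndependent ℝ f)
    (g : {i // i ∉ S} → V) (hg : ∀ i : {i // i ∉ S}, g i ∈ U i) (hgi : LinearIndependent ℝ (fun i => P.mkQ (g i))) :
    ∃ u : ι → V, (∀ i, u i ∈ U i) ∧ LinearIndependent ℝ u := by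
  refine ⟨fun i => if h : i ∈ S then f ⟨i, h⟩ else g ⟨i, h⟩, ?_, ?_⟩
  · intro i
    by_cases h : i ∈ S
    · simp only [h, dif_pos]; exact hf ⟨i, h⟩
    · simp only [h, dif_neg, not_false_eq_true]; exact hg ⟨i, h⟩
  · rw [← linearIndependent_equiv (Equiv.sumCompl (fun i => i ∈ S))]
    have h1 : (fun i => if h : i ∈ S then f ⟨i, h⟩ else g ⟨i, h⟩) ∘ (Equiv.sumCompl (fun i => i ∈ S))
        = Sum.elim (fun i => ((⟨f i, hfP i⟩ : P) : V)) g := by
      funext x
      rcases x with x | x
      · simp [x.2]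
      · simp [x.2]
    rw [h1]
    refine LinearIndependent.sumElim_of_quotient (M' := P) (f := fun i => (⟨f i, hfP i⟩ : P)) ?_ g hgi
    exact LinearIndependent.of_comp P.subtype hfi

theorem finrank_map_mkQ [FiniteDimensional ℝ V] (P W : Submodule ℝ V) :
    finrank ℝ W ≤ finrank ℝ (W.map P.mkQ) + finrank ℝ P := by
  have h1 := LinearMap.finrank_range_add_finrank_ker (P.mkQ.domRestrict W)
  rw [LinearMap.range_domRestrict] at h1
  have h2 : finrank ℝ (LinearMap.ker (P.mkQ.domRestrict W)) ≤ finrank ℝ P := by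
    have h3 : ∀ x : LinearMap.ker (P.mkQ.domRestrict W), ((x : W) : V) ∈ P := by
      intro x
      have := x.2
      rw [LinearMap.mem_ker, LinearMap.domRestrict_apply, Submodule.mkQ_apply,
        Submodule.Quotient.mk_eq_zero] at this
      exact this
    let j : LinearMap.ker (P.mkQ.domRestrict W) →ₗ[ℝ] P :=
      LinearMap.codRestrict P (W.subtype ∘ₗ (LinearMap.ker (P.mkQ.domRestrict W)).subtype) h3
    refine LinearMap.finrank_le_finrank_of_injective (f := j) ?_
    intro x y hxy
    have := congrArg Subtype.val hxy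
    exact Subtype.ext (Subtype.ext this)
  omega
end

theorem rado_aux (k : ℕ) : ∀ (ι : Type) [Fintype ι] [DecidableEq ι] (V : Type) [AddCommGroup V]
    [Module ℝ V] [FiniteDimensional ℝ V] (U : ι → Submodule ℝ V), Fintype.card ι = k →
    (∀ S : Finset ι, S.card ≤ finrank ℝ (⨆ i ∈ S, U i : Submodule ℝ V)) →
    ∃ u : ι → V, (∀ i, u i ∈ U i) ∧ LinearIndependent ℝ u := by
  induction k using Nat.strong_induction_on with
  | _ k ih =>
  intro ι _ _ V _ _ _ U hcard hall
  rcases isEmpty_or_nonempty ι with hE | hN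
  · exact ⟨fun i => 0, fun i => (hE.false i).elim, linearIndependent_empty_type⟩
  -- the common step
  have step : ∀ (S : Finset ι) (P : Submodule ℝ V), S.Nonempty →
      (∃ f : {i // i ∈ S} → V, (∀ i : {i // i ∈ S}, f i ∈ U i) ∧ (∀ i, f i ∈ P) ∧ LinearIndependent ℝ f) →
      (∀ T : Finset ι, Disjoint T S → T.card ≤ finrank ℝ ((⨆ i ∈ T, U i : Submodule ℝ V).map P.mkQ)) →
      ∃ u : ι → V, (∀ i, u i ∈ U i) ∧ LinearIndependent ℝ u := by
    rintro S P hS ⟨f, hf, hfP, hfi⟩ hq
    have hlt : Fintype.card {i // i ∉ S} < k := by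
      rw [← hcard]
      obtain ⟨i, hi⟩ := hS
      exact Fintype.card_subtype_lt (x := i) (by simpa using hi)
    obtain ⟨u', hu', hu'i⟩ := ih _ hlt {i // i ∉ S} (V ⧸ P) (fun j => (U j).map P.mkQ) rfl (by
      intro T
      have h1 : (⨆ i ∈ T, (U i).map P.mkQ : Submodule ℝ (V ⧸ P)) =
          (⨆ i ∈ T.map (Function.Embedding.subtype _), U i : Submodule ℝ V).map P.mkQ := by
        rw [Submodule.map_iSup]
        simp only [Submodule.map_iSup]
        apply le_antisymm
        · refine iSup₂_le fun i hi => ?_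
          exact le_iSup₂_of_le (i : ι) (Finset.mem_map.mpr ⟨i, hi, rfl⟩) le_rfl
        · refine iSup₂_le fun i hi => ?_
          obtain ⟨a, ha, rfl⟩ := Finset.mem_map.mp hi
          exact le_iSup₂_of_le a ha le_rfl
      rw [h1]
      have h2 := hq (T.map (Function.Embedding.subtype _)) (by
        rw [Finset.disjoint_left]
        intro a ha
        obtain ⟨b, _, rfl⟩ := Finset.mem_map.mp ha
        exact b.2)
      rwa [Finset.card_map] at h2)
    have h3 : ∀ j : {i // i ∉ S}, ∃ y ∈ U j, P.mkQ y = u' j := fun j => hu' j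
    choose g hg hg' using h3
    refine combine U S P f hf hfP hfi g hg ?_
    have : (fun i => P.mkQ (g i)) = u' := funext hg'
    rw [this]; exact hu'i
  by_cases htight : ∃ S : Finset ι, S.Nonempty ∧ S ≠ Finset.univ ∧
      finrank ℝ (⨆ i ∈ S, U i : Submodule ℝ V) ≤ S.card
  · obtain ⟨S, hS, hSu, hSt⟩ := htight
    refine step S (⨆ i ∈ S, U i) hS ?_ ?_
    · have hlt : Fintype.card {i // i ∈ S} < k := by
        rw [← hcard]
        obtain ⟨i, hi⟩ : ∃ i, i ∉ S := by
          by_contra h
          push Not at h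
          exact hSu (Finset.eq_univ_iff_forall.mpr h)
        exact Fintype.card_subtype_lt (x := i) hi
      obtain ⟨f, hf, hfi⟩ := ih _ hlt {i // i ∈ S} V (fun j => U j) rfl (by
        intro T
        have h1 : (⨆ i ∈ T, U i : Submodule ℝ V) =
            (⨆ i ∈ T.map (Function.Embedding.subtype _), U i : Submodule ℝ V) := by
          apply le_antisymm
          · refine iSup₂_le fun i hi => ?_
            exact le_iSup₂_of_le (i : ι) (Finset.mem_map.mpr ⟨i, hi, rfl⟩) le_rfl
          · refine iSup₂_le fun i hi => ?_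
            obtain ⟨a, ha, rfl⟩ := Finset.mem_map.mp hi
            exact le_iSup₂_of_le a ha le_rfl
        rw [h1]
        have h2 := hall (T.map (Function.Embedding.subtype _))
        rwa [Finset.card_map] at h2)
      refine ⟨f, hf, fun i => ?_, hfi⟩
      exact (le_iSup₂_of_le (f := fun i (_ : i ∈ S) => U i) (i : ι) i.2 le_rfl) (hf i)
    · intro T hT
      set P : Submodule ℝ V := ⨆ i ∈ S, U i with hP
      have h1 : (⨆ i ∈ T, U i : Submodule ℝ V).map P.mkQ = ((⨆ i ∈ T, U i : Submodule ℝ V) ⊔ P).map P.mkQ := by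
        rw [Submodule.map_sup, Submodule.mkQ_map_self, sup_bot_eq]
      rw [h1]
      have h2 := finrank_map_mkQ P ((⨆ i ∈ T, U i : Submodule ℝ V) ⊔ P)
      have h3 := hall (T ∪ S)
      rw [Finset.iSup_union] at h3
      rw [Finset.card_union_of_disjoint hT] at h3
      rw [← hP] at h3
      omega
  · push Not at htight
    obtain ⟨i0⟩ := hN
    have h1 := hall {i0}
    have h2 : (⨆ i ∈ ({i0} : Finset ι), U i : Submodule ℝ V) = U i0 := by simp
    rw [h2, Finset.card_singleton] at h1
    have h3 : U i0 ≠ ⊥ := by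
      intro h
      rw [h, finrank_bot] at h1
      omega
    obtain ⟨x, hx, hx0⟩ := Submodule.exists_mem_ne_zero_of_ne_bot h3
    refine step {i0} (Submodule.span ℝ {x}) (Finset.singleton_nonempty _) ?_ ?_
    · refine ⟨fun _ => x, ?_, ?_, ?_⟩
      · rintro ⟨i, hi⟩
        rw [Finset.mem_singleton] at hi
        subst hi
        exact hx
      · intro _
        exact Submodule.mem_span_singleton_self x
      · have : Subsingleton {i // i ∈ ({i0} : Finset ι)} := ⟨by
          rintro ⟨a, ha⟩ ⟨b, hb⟩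
          rw [Finset.mem_singleton] at ha hb
          subst ha; subst hb; rfl⟩
        exact LinearIndependent.of_subsingleton ⟨i0, Finset.mem_singleton_self _⟩ hx0
    · intro T hT
      rcases T.eq_empty_or_nonempty with rfl | hTn
      · simp
      have h4 := finrank_map_mkQ (Submodule.span ℝ {x}) (⨆ i ∈ T, U i : Submodule ℝ V)
      rw [finrank_span_singleton hx0] at h4
      have h5 : T ≠ Finset.univ := by
        rintro rfl
        rw [Finset.disjoint_singleton_right] at hT
        exact hT (Finset.mem_univ _)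
      have h6 := htight T hTn h5
      omega

theorem rado {ι : Type} [Fintype ι] [DecidableEq ι] {V : Type} [AddCommGroup V]
    [Module ℝ V] [FiniteDimensional ℝ V] (U : ι → Submodule ℝ V)
    (hall : ∀ S : Finset ι, S.card ≤ finrank ℝ (⨆ i ∈ S, U i : Submodule ℝ V)) :
    ∃ u : ι → V, (∀ i, u i ∈ U i) ∧ LinearIndependent ℝ u :=
  rado_aux _ ι V U rfl hall

end Pool.Agent.Helper76.Sel
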