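import Mathlib
import Pool.Agent.Helper76.Sel.Isotropic
import Pool.Agent.Helper76.Sel.Rado

set_option autoImplicit false
set_option linter.unusedSectionVars false

open Matrix Finset Module

namespace Pool.Agent.Helper76.Sel

variable {n : Type} [Fintype n] [DecidableEq n]

/-- sign as a real number -/
def sg (σ : Equiv.Perm n) : ℝ := ((Equiv.Perm.sign σ : ℤ) : ℝ)

/-- (a multiple of) the mixed discriminant -/
def mix (M : n → Matrix n n ℝ) : ℝ :=
  ∑ σ : Equiv.Perm n, ∑ τ : Equiv.Perm n, sg σ * sg τ * ∏ i, M i (σ i) (τ i)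

theorem det_rows (u : n → n → ℝ) : (Matrix.of u).det = ∑ σ : Equiv.Perm n, sg σ * ∏ i, u i (σ i) := by
  rw [← Matrix.det_transpose, Matrix.det_apply']
  rfl

theorem det_sq (u : n → n → ℝ) : (Matrix.of u).det ^ 2 =
    ∑ σ : Equiv.Perm n, ∑ τ : Equiv.Perm n, sg σ * sg τ * ∏ i, (u i (σ i) * u i (τ i)) := by
  rw [det_rows, sq, Finset.sum_mul_sum]
  refine Finset.sum_congr rfl fun σ _ => Finset.sum_congr rfl fun τ _ => ?_
  rw [Finset.prod_mul_distrib]; ring

theorem abs_sg (σ : Equiv.Perm n) : |sg σ| = 1 := by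
  unfold sg
  rcases Int.units_eq_one_or (Equiv.Perm.sign σ) with h | h <;> simp [h]

/-- multilinear expansion of `mix`. -/
theorem mix_sum {κ : Type} [Fintype κ] [DecidableEq κ] (N : n → κ → Matrix n n ℝ) :
    mix (fun i => ∑ k, N i k) = ∑ f : n → κ, mix (fun i => N i (f i)) := by
  unfold mix
  have h1 : ∀ (σ τ : Equiv.Perm n), sg σ * sg τ * ∏ i, (∑ k, N i k) (σ i) (τ i)
      = ∑ f : n → κ, sg σ * sg τ * ∏ i, N i (f i) (σ i) (τ i) := by
    intro σ τ
    rw [← Finset.mul_sum]
    congr 1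
    have h2 : ∀ i, (∑ k, N i k) (σ i) (τ i) = ∑ k, N i k (σ i) (τ i) := by
      intro i; rw [Matrix.sum_apply]
    rw [Finset.prod_congr rfl fun i _ => h2 i, Finset.prod_univ_sum, Fintype.piFinset_univ]
  rw [Finset.sum_congr rfl fun σ _ => Finset.sum_congr rfl fun τ _ => h1 σ τ]
  have h2 : ∀ σ : Equiv.Perm n, ∑ τ : Equiv.Perm n, ∑ f : n → κ, sg σ * sg τ * ∏ i, N i (f i) (σ i) (τ i)
      = ∑ f : n → κ, ∑ τ : Equiv.Perm n, sg σ * sg τ * ∏ i, N i (f i) (σ i) (τ i) :=
    fun σ => Finset.sum_comm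
  rw [Finset.sum_congr rfl fun σ _ => h2 σ, Finset.sum_comm]

theorem mix_smul (c : n → ℝ) (M : n → Matrix n n ℝ) :
    mix (fun i => c i • M i) = (∏ i, c i) * mix M := by
  unfold mix
  rw [Finset.mul_sum]
  refine Finset.sum_congr rfl fun σ _ => ?_
  rw [Finset.mul_sum]
  refine Finset.sum_congr rfl fun τ _ => ?_
  simp only [Matrix.smul_apply, smul_eq_mul, Finset.prod_mul_distrib]
  ring

theorem mix_rank_one (u : n → n → ℝ) :
    mix (fun i => Matrix.of fun a b => u i a * u i b) = (Matrix.of u).det ^ 2 := by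
  rw [det_sq]; rfl

/-- positive semidefinite (own form) -/
def PSD (M : Matrix n n ℝ) : Prop := (∀ a b, M a b = M b a) ∧ ∀ v, 0 ≤ qf M v

theorem PSD.factor {M : Matrix n n ℝ} (h : PSD M) :
    ∃ B : Matrix n n ℝ, ∀ a b, M a b = ∑ k, B k a * B k b := by
  open scoped MatrixOrder in
  have h1 : M.PosSemidef := by
    rw [Matrix.posSemidef_iff_dotProduct_mulVec]
    refine ⟨?_, fun x => ?_⟩
    · ext a b
      simp [Matrix.conjTranspose_apply, h.1 a b]
    · have h2 := h.2 x
      have h3 : star x ⬝ᵥ (M *ᵥ x) = qf M x := by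
        unfold qf
        simp only [dotProduct, mulVec, Pi.star_apply, star_trivial, Finset.mul_sum]
        refine Finset.sum_congr rfl fun a _ => Finset.sum_congr rfl fun b _ => by ring
      rw [h3]; exact h2
  obtain ⟨B, hB⟩ := CStarAlgebra.nonneg_iff_eq_star_mul_self.mp h1.nonneg
  refine ⟨B, fun a b => ?_⟩
  rw [hB, Matrix.mul_apply]
  rfl

theorem qf_factor (B : Matrix n n ℝ) (M : Matrix n n ℝ) (hB : ∀ a b, M a b = ∑ k, B k a * B k b)
    (v : n → ℝ) : qf M v = ∑ k, (∑ a, B k a * v a) ^ 2 := by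
  unfold qf
  have h1 : ∀ k, (∑ a, B k a * v a) ^ 2 = ∑ a, ∑ b, v a * v b * (B k a * B k b) := by
    intro k
    rw [sq, Finset.sum_mul_sum]
    refine Finset.sum_congr rfl fun a _ => Finset.sum_congr rfl fun b _ => by ring
  rw [Finset.sum_congr rfl fun k _ => h1 k]
  have h2 : ∀ a b, v a * v b * M a b = ∑ k, v a * v b * (B k a * B k b) := by
    intro a b
    rw [hB a b, Finset.mul_sum]
  rw [Finset.sum_congr rfl fun a _ => Finset.sum_congr rfl fun b _ => h2 a b]
  rw [Finset.sum_congr rfl fun a _ => Finset.sum_comm, Finset.sum_comm]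

/-- doubly stochastic tuples -/
def DS : Set (n → Matrix n n ℝ) :=
  {M | (∀ i, PSD (M i)) ∧ (∀ i, ∑ a, M i a a = 1) ∧ ∀ v : n → ℝ, ∑ i, qf (M i) v = ∑ a, v a ^ 2}

theorem mix_pos {M : n → Matrix n n ℝ} (hM : M ∈ (DS : Set (n → Matrix n n ℝ))) : 0 < mix M := by
  obtain ⟨hpsd, htr, hsum⟩ := hM
  choose B hB using fun i => (hpsd i).factor
  -- expansion
  have hmix : mix M = ∑ f : n → n, (Matrix.of fun i => B i (f i)).det ^ 2 := by
    have h1 : M = fun i => ∑ k, (Matrix.of fun a b => B i k a * B i k b : Matrix n n ℝ) := by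
      funext i
      ext a b
      rw [hB i a b, Matrix.sum_apply]
      rfl
    rw [h1, mix_sum (fun i k => (Matrix.of fun a b => B i k a * B i k b : Matrix n n ℝ))]
    refine Finset.sum_congr rfl fun f _ => ?_
    exact mix_rank_one (fun i => B i (f i))
  -- the subspaces
  let w : n → n → EuclideanSpace ℝ n := fun i k => WithLp.toLp 2 (B i k)
  let U : n → Submodule ℝ (EuclideanSpace ℝ n) := fun i => Submodule.span ℝ (Set.range (w i))
  have hall : ∀ S : Finset n, S.card ≤ finrank ℝ (⨆ i ∈ S, U i : Submodule ℝ (EuclideanSpace ℝ n)) := by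
    intro S
    set W : Submodule ℝ (EuclideanSpace ℝ n) := ⨆ i ∈ S, U i with hW
    have h1 : finrank ℝ W + finrank ℝ Wᗮ = Fintype.card n := by
      rw [Submodule.finrank_add_finrank_orthogonal, finrank_euclideanSpace]
    let b := stdOrthonormalBasis ℝ Wᗮ
    let f : Fin (finrank ℝ Wᗮ) → EuclideanSpace ℝ n := fun l => (b l : EuclideanSpace ℝ n)
    have hf : Orthonormal ℝ f := by
      have := b.orthonormal
      exact this.comp_linearIsometry Wᗮ.subtypeₗᵢ
    have hnorm : ∀ l, ∑ a, (f l) a ^ 2 = 1 := by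
      intro l
      have h2 := hf.1 l
      have h3 := EuclideanSpace.norm_sq_eq (f l)
      rw [h2] at h3
      simpa using h3.symm
    have hin : ∀ i k l, inner ℝ (f l) (w i k) = ∑ a, B i k a * f l a := by
      intro i k l
      simp [w, PiLp.inner_apply]
    have hq : ∀ i l, qf (M i) (f l) = ∑ k, (inner ℝ (f l) (w i k)) ^ 2 := by
      intro i l
      rw [qf_factor (B i) (M i) (hB i)]
      refine Finset.sum_congr rfl fun k _ => ?_
      rw [hin]
    have h0 : ∀ i ∈ S, ∀ l, qf (M i) (f l) = 0 := by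
      intro i hi l
      rw [hq]
      refine Finset.sum_eq_zero fun k _ => ?_
      have h2 : w i k ∈ W := by
        have : w i k ∈ U i := Submodule.subset_span ⟨k, rfl⟩
        exact (le_iSup₂_of_le (f := fun i (_ : i ∈ S) => U i) i hi le_rfl) this
      have h3 : inner ℝ (w i k) (f l) = 0 := (Submodule.mem_orthogonal W _).mp (b l).2 _ h2
      rw [real_inner_comm] at h3
      rw [h3]; norm_num
    have h1' : ∀ i, ∑ l, qf (M i) (f l) ≤ 1 := by
      intro i
      rw [Finset.sum_congr rfl fun l _ => hq i l, Finset.sum_comm, ← htr i]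
      have h2 : ∑ a, M i a a = ∑ k, ‖w i k‖ ^ 2 := by
        rw [Finset.sum_congr rfl fun a _ => hB i a a, Finset.sum_comm]
        refine Finset.sum_congr rfl fun k _ => ?_
        rw [EuclideanSpace.norm_sq_eq]
        refine Finset.sum_congr rfl fun a _ => ?_
        simp [w, sq]
      rw [h2]
      refine Finset.sum_le_sum fun k _ => ?_
      have h3 := hf.sum_inner_products_le (s := Finset.univ) (w i k)
      simpa using h3
    have h2 : (finrank ℝ Wᗮ : ℝ) = ∑ l, ∑ i, qf (M i) (f l) := by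
      rw [Finset.sum_congr rfl fun l _ => (hsum (f l)).trans (hnorm l)]
      simp
    have h3 : (finrank ℝ Wᗮ : ℝ) ≤ (Sᶜ.card : ℝ) := by
      rw [h2, Finset.sum_comm, ← Finset.sum_add_sum_compl S]
      have h4 : ∑ i ∈ S, ∑ l, qf (M i) (f l) = 0 :=
        Finset.sum_eq_zero fun i hi => Finset.sum_eq_zero fun l _ => h0 i hi l
      rw [h4, zero_add]
      calc ∑ i ∈ Sᶜ, ∑ l, qf (M i) (f l) ≤ ∑ i ∈ Sᶜ, (1 : ℝ) := Finset.sum_le_sum fun i _ => h1' i
        _ = _ := by simp
    have h4 : finrank ℝ Wᗮ ≤ Sᶜ.card := by exact_mod_cast h3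
    rw [Finset.card_compl] at h4
    have h5 : S.card ≤ Fintype.card n := Finset.card_le_univ S
    omega
  obtain ⟨u, hu, hui⟩ := rado U hall
  -- coordinates
  have hc : ∀ i, ∃ c : n → ℝ, ∑ k, c k • w i k = u i := by
    intro i
    have := hu i
    rwa [Submodule.mem_span_range_iff_exists_fun] at this
  choose c hc using hc
  have hdet : (Matrix.of fun i a => u i a).det ≠ 0 := by
    have h1 : LinearIndependent ℝ (fun i => (fun a => u i a : n → ℝ)) := by
      have h2 := hui.map' (WithLp.linearEquiv 2 ℝ (n → ℝ)).toLinearMap (LinearEquiv.ker _)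
      exact h2
    have h2 : IsUnit (Matrix.of fun i a => u i a) := by
      rw [← Matrix.linearIndependent_rows_iff_isUnit]
      exact h1
    rw [Matrix.isUnit_iff_isUnit_det] at h2
    exact h2.ne_zero
  rw [hmix]
  refine lt_of_le_of_ne (Finset.sum_nonneg fun f _ => sq_nonneg _) ?_
  intro h0
  have h1 : ∀ f : n → n, (Matrix.of fun i => B i (f i)).det = 0 := by
    intro f
    have := (Finset.sum_eq_zero_iff_of_nonneg (fun f _ => sq_nonneg _)).mp h0.symm f (Finset.mem_univ _)
    exact pow_eq_zero_iff (two_ne_zero) |>.mp this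
  apply hdet
  have h2 : (fun i a => u i a) = fun i => ∑ k, (c i k • B i k : n → ℝ) := by
    funext i a
    rw [← hc i]
    simp [w, Finset.sum_apply]
  rw [h2]
  have h3 : (Matrix.of fun i => ∑ k, (c i k • B i k : n → ℝ)).det
      = (Matrix.detRowAlternating (R := ℝ) (n := n)).toMultilinearMap (fun i => ∑ k, (c i k • B i k : n → ℝ)) := rfl
  rw [h3, MultilinearMap.map_sum]
  refine Finset.sum_eq_zero fun f _ => ?_
  rw [MultilinearMap.map_smul_univ]
  have h4 : (Matrix.detRowAlternating (R := ℝ) (n := n)).toMultilinearMap (fun i => B i (f i)) = 0 := h1 f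
  rw [h4, smul_zero]

theorem PSD.entry {M : Matrix n n ℝ} (h : PSD M) (htr : ∑ a, M a a = 1) (a b : n) : |M a b| ≤ 1 := by
  obtain ⟨B, hB⟩ := h.factor
  have hd : ∀ a, 0 ≤ M a a := fun a => by
    rw [hB]; exact Finset.sum_nonneg fun k _ => mul_self_nonneg _
  have h1 : ∀ a, M a a ≤ 1 := fun a => by
    rw [← htr]
    exact Finset.single_le_sum (f := fun a => M a a) (fun i _ => hd i) (Finset.mem_univ a)
  have h2 : |M a b| ≤ (M a a + M b b) / 2 := by
    rw [hB a b, hB a a, hB b b, ← Finset.sum_add_distrib, Finset.sum_div]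
    refine (Finset.abs_sum_le_sum_abs _ _).trans (Finset.sum_le_sum fun k _ => ?_)
    rw [abs_mul]
    nlinarith [sq_nonneg (|B k a| - |B k b|), sq_abs (B k a), sq_abs (B k b)]
  linarith [h1 a, h1 b]

theorem continuous_qf (v : n → ℝ) : Continuous (fun M : Matrix n n ℝ => qf M v) := by
  unfold qf; fun_prop

theorem continuous_mix : Continuous (mix : (n → Matrix n n ℝ) → ℝ) := by
  unfold mix; fun_prop

theorem isCompact_DS : IsCompact (DS : Set (n → Matrix n n ℝ)) := by
  have h1 : IsCompact (Set.pi Set.univ (fun _ : n => Set.pi Set.univ (fun _ : n =>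
      Set.pi Set.univ (fun _ : n => Set.Icc (-1 : ℝ) 1)))) :=
    isCompact_univ_pi fun _ => isCompact_univ_pi fun _ => isCompact_univ_pi fun _ => isCompact_Icc
  refine h1.of_isClosed_subset ?_ ?_
  · have h2 : (DS : Set (n → Matrix n n ℝ)) =
        ((⋂ i, ⋂ a, ⋂ b, {M : n → Matrix n n ℝ | M i a b = M i b a}) ∩
        (⋂ i, ⋂ v, {M : n → Matrix n n ℝ | 0 ≤ qf (M i) v})) ∩
        ((⋂ i, {M : n → Matrix n n ℝ | ∑ a, M i a a = 1}) ∩
        ⋂ v : n → ℝ, {M : n → Matrix n n ℝ | ∑ i, qf (M i) v = ∑ a, v a ^ 2}) := by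
      ext M
      simp only [DS, PSD, Set.mem_setOf_eq, Set.mem_inter_iff, Set.mem_iInter]
      constructor
      · rintro ⟨h1, h2, h3⟩
        exact ⟨⟨fun i => (h1 i).1, fun i => (h1 i).2⟩, h2, h3⟩
      · rintro ⟨⟨h1, h1'⟩, h2, h3⟩
        exact ⟨fun i => ⟨h1 i, h1' i⟩, h2, h3⟩
    rw [h2]
    refine IsClosed.inter (IsClosed.inter ?_ ?_) (IsClosed.inter ?_ ?_)
    · exact isClosed_iInter fun i => isClosed_iInter fun a => isClosed_iInter fun b =>
        isClosed_eq (by fun_prop) (by fun_prop)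
    · exact isClosed_iInter fun i => isClosed_iInter fun v =>
        isClosed_le continuous_const ((continuous_qf v).comp (continuous_apply i))
    · exact isClosed_iInter fun i => isClosed_eq (by fun_prop) continuous_const
    · exact isClosed_iInter fun v => isClosed_eq
        (continuous_finsetSum _ fun i _ => (continuous_qf v).comp (continuous_apply i)) continuous_const
  · intro M hM i _ a _ b _
    exact abs_le.mp ((hM.1 i).entry (hM.2.1 i) a b)

theorem exists_mix_lower : ∃ κ : ℝ, 0 < κ ∧ ∀ M ∈ (DS : Set (n → Matrix n n ℝ)), κ ≤ mix M := by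
  rcases (DS : Set (n → Matrix n n ℝ)).eq_empty_or_nonempty with h | h
  · exact ⟨1, one_pos, fun M hM => by rw [h] at hM; exact hM.elim⟩
  · obtain ⟨M, hM, hmin⟩ := isCompact_DS.exists_isMinOn h (continuous_mix (n := n)).continuousOn
    exact ⟨mix M, mix_pos hM, fun N hN => hmin hN⟩

end Pool.Agent.Helper76.Sel
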