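import Mathlib
import Pool.Agent.Helper76.Sel.Mix

set_option autoImplicit false
set_option linter.unusedSectionVars false

open Matrix Finset MeasureTheory

namespace Pool.Agent.Helper76.Sel

variable {n : Type} [Fintype n] [DecidableEq n] {X : Type} [MeasurableSpace X]

/-- squared euclidean length -/
def nsq (v : n → ℝ) : ℝ := ∑ a, v a ^ 2

theorem nsq_nonneg (v : n → ℝ) : 0 ≤ nsq v := Finset.sum_nonneg fun _ _ => sq_nonneg _

theorem sq_le_nsq (v : n → ℝ) (a : n) : v a ^ 2 ≤ nsq v :=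
  Finset.single_le_sum (f := fun a => v a ^ 2) (fun _ _ => sq_nonneg _) (Finset.mem_univ a)

/-- crude Hadamard bound -/
theorem det_sq_le (u : n → n → ℝ) :
    (Matrix.of u).det ^ 2 ≤ ((Fintype.card n).factorial : ℝ) ^ 2 * ∏ i, nsq (u i) := by
  have h1 : |(Matrix.of u).det| ≤ ((Fintype.card n).factorial : ℝ) * ∏ i, Real.sqrt (nsq (u i)) := by
    rw [det_rows]
    refine (Finset.abs_sum_le_sum_abs _ _).trans ?_
    calc ∑ σ : Equiv.Perm n, |sg σ * ∏ i, u i (σ i)|
        ≤ ∑ σ : Equiv.Perm n, ∏ i, Real.sqrt (nsq (u i)) := by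
          refine Finset.sum_le_sum fun σ _ => ?_
          rw [abs_mul, abs_sg, one_mul, Finset.abs_prod]
          refine Finset.prod_le_prod (fun _ _ => abs_nonneg _) fun i _ => ?_
          exact Real.abs_le_sqrt (sq_le_nsq _ _)
      _ = _ := by
          rw [Finset.sum_const, Finset.card_univ, Fintype.card_perm, nsmul_eq_mul]
  have h2 : 0 ≤ ((Fintype.card n).factorial : ℝ) * ∏ i, Real.sqrt (nsq (u i)) := by positivity
  have h3 := mul_self_le_mul_self (abs_nonneg _) h1
  rw [abs_mul_abs_self] at h3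
  calc (Matrix.of u).det ^ 2 = (Matrix.of u).det * (Matrix.of u).det := sq _
    _ ≤ _ := h3
    _ = _ := by
      rw [show ∀ a b : ℝ, a * b * (a * b) = a ^ 2 * (b * b) from fun a b => by ring,
        ← Finset.prod_mul_distrib]
      congr 1
      exact Finset.prod_congr rfl fun i _ => Real.mul_self_sqrt (nsq_nonneg _)

/-- second moment matrix -/
noncomputable def AA (μ : Measure X) (Y : X → n → ℝ) : Matrix n n ℝ :=
  Matrix.of fun a b => ∫ x, Y x a * Y x b ∂μ

theorem integrable_nsq (μ : Measure X) (Y : X → n → ℝ)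
    (hint : ∀ a b, Integrable (fun x => Y x a * Y x b) μ) : Integrable (fun x => nsq (Y x)) μ := by
  unfold nsq
  refine integrable_finset_sum _ fun a _ => ?_
  have := hint a a
  simpa [sq] using this

theorem mix_AA (μ : n → Measure X) [∀ i, SigmaFinite (μ i)] (Y : X → n → ℝ)
    (hint : ∀ i a b, Integrable (fun x => Y x a * Y x b) (μ i)) :
    Integrable (fun x : n → X => (Matrix.of fun i => Y (x i)).det ^ 2) (Measure.pi μ) ∧
    mix (fun i => AA (μ i) Y) = ∫ x, (Matrix.of fun i => Y (x i)).det ^ 2 ∂(Measure.pi μ) := by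
  have h0 : ∀ σ τ : Equiv.Perm n, Integrable (fun x : n → X =>
      sg σ * sg τ * ∏ i, (Y (x i) (σ i) * Y (x i) (τ i))) (Measure.pi μ) := by
    intro σ τ
    refine Integrable.const_mul ?_ _
    exact Integrable.fintype_prod_dep (f := fun i x => Y x (σ i) * Y x (τ i)) (fun i => hint i _ _)
  have h1 : (fun x : n → X => (Matrix.of fun i => Y (x i)).det ^ 2) =
      fun x : n → X => ∑ σ : Equiv.Perm n, ∑ τ : Equiv.Perm n,
        sg σ * sg τ * ∏ i, (Y (x i) (σ i) * Y (x i) (τ i)) := by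
    funext x
    exact det_sq (fun i => Y (x i))
  constructor
  · rw [h1]
    exact integrable_finset_sum _ fun σ _ => integrable_finset_sum _ fun τ _ => h0 σ τ
  · rw [h1, integral_finset_sum _ fun σ _ => integrable_finset_sum _ fun τ _ => h0 σ τ]
    unfold mix
    refine Finset.sum_congr rfl fun σ _ => ?_
    rw [integral_finset_sum _ fun τ _ => h0 σ τ]
    refine Finset.sum_congr rfl fun τ _ => ?_
    rw [integral_const_mul, integral_fintype_prod_eq_prod (f := fun i x => Y x (σ i) * Y x (τ i))]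
    rfl

theorem mix_le (μ : n → Measure X) [∀ i, SigmaFinite (μ i)] (Y : X → n → ℝ)
    (hint : ∀ i a b, Integrable (fun x => Y x a * Y x b) (μ i)) (c η : ℝ) (hc : 0 ≤ c)
    (G : n → Set X) (hG : ∀ i, MeasurableSet (G i))
    (hH : ∀ᵐ x ∂(Measure.pi μ), (∀ i, x i ∈ G i) →
      (Matrix.of fun i => Y (x i)).det ^ 2 ≤ c * ∏ i, nsq (Y (x i)))
    (hη : ∀ i, ∫ x in (G i)ᶜ, nsq (Y x) ∂(μ i) ≤ η * ∫ x, nsq (Y x) ∂(μ i)) :
    mix (fun i => AA (μ i) Y) ≤ (c + ((Fintype.card n).factorial : ℝ) ^ 2 * Fintype.card n * η) *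
      ∏ i, ∫ x, nsq (Y x) ∂(μ i) := by
  classical
  set Cm : ℝ := ((Fintype.card n).factorial : ℝ) ^ 2 with hCm
  have hCm0 : 0 ≤ Cm := by positivity
  obtain ⟨hI, hE⟩ := mix_AA μ Y hint
  have hn : ∀ i, Integrable (fun x => nsq (Y x)) (μ i) := fun i => integrable_nsq (μ i) Y (hint i)
  -- the dominating function
  let h : n → n → X → ℝ := fun k i x => if i = k then (G i)ᶜ.indicator (fun x => nsq (Y x)) x else nsq (Y x)
  have hh0 : ∀ k i x, 0 ≤ h k i x := by
    intro k i x
    simp only [h]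
    split_ifs
    · exact Set.indicator_nonneg (fun x _ => nsq_nonneg _) x
    · exact nsq_nonneg _
  have hhint : ∀ k i, Integrable (h k i) (μ i) := by
    intro k i
    simp only [h]
    by_cases hik : i = k
    · simp only [hik, if_true]
      subst hik
      exact (hn i).indicator (hG i).compl
    · simp only [hik, if_false]
      exact hn i
  have hint1 : Integrable (fun x : n → X => c * ∏ i, nsq (Y (x i))) (Measure.pi μ) :=
    (Integrable.fintype_prod_dep (f := fun _ x => nsq (Y x)) hn).const_mul c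
  have hint2 : ∀ k, Integrable (fun x : n → X => ∏ i, h k i (x i)) (Measure.pi μ) := fun k =>
    Integrable.fintype_prod_dep (hhint k)
  have hint3 : Integrable (fun x : n → X => Cm * ∑ k, ∏ i, h k i (x i)) (Measure.pi μ) :=
    (integrable_finset_sum _ fun k _ => hint2 k).const_mul Cm
  have hbd : ∀ᵐ x ∂(Measure.pi μ), (Matrix.of fun i => Y (x i)).det ^ 2 ≤
      c * ∏ i, nsq (Y (x i)) + Cm * ∑ k, ∏ i, h k i (x i) := by
    filter_upwards [hH] with x hx
    by_cases hxG : ∀ i, x i ∈ G i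
    · have h1 : 0 ≤ Cm * ∑ k, ∏ i, h k i (x i) :=
        mul_nonneg hCm0 (Finset.sum_nonneg fun k _ => Finset.prod_nonneg fun i _ => hh0 k i _)
      linarith [hx hxG]
    · push Not at hxG
      obtain ⟨k, hk⟩ := hxG
      have h1 : 0 ≤ c * ∏ i, nsq (Y (x i)) :=
        mul_nonneg hc (Finset.prod_nonneg fun i _ => nsq_nonneg _)
      have h2 := det_sq_le (fun i => Y (x i))
      have h3 : ∏ i, h k i (x i) = ∏ i, nsq (Y (x i)) := by
        refine Finset.prod_congr rfl fun i _ => ?_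
        simp only [h]
        split_ifs with hik
        · subst hik
          exact Set.indicator_of_mem (Set.mem_compl hk) _
        · rfl
      have h4 : ∏ i, h k i (x i) ≤ ∑ k, ∏ i, h k i (x i) :=
        Finset.single_le_sum (f := fun k => ∏ i, h k i (x i))
          (fun k _ => Finset.prod_nonneg fun i _ => hh0 k i _) (Finset.mem_univ k)
      rw [h3] at h4
      have h5 := mul_le_mul_of_nonneg_left h4 hCm0
      linarith
  have hT0 : ∀ i, 0 ≤ ∫ x, nsq (Y x) ∂(μ i) := fun i => integral_nonneg fun x => nsq_nonneg _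
  rw [hE]
  refine (integral_mono_ae hI (hint1.add hint3) hbd).trans ?_
  have e0 : ∫ x : n → X, (((fun x : n → X => c * ∏ i, nsq (Y (x i))) + fun x : n → X => Cm * ∑ k, ∏ i, h k i (x i)) x) ∂(Measure.pi μ)
      = c * ∏ i, ∫ x, nsq (Y x) ∂(μ i) + Cm * ∑ k, ∏ i, ∫ x, h k i x ∂(μ i) := by
    rw [integral_add' hint1 hint3, integral_const_mul, integral_const_mul,
      integral_finset_sum _ fun k _ => hint2 k,
      integral_fintype_prod_eq_prod (f := fun _ x => nsq (Y x))]
    congr 2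
    refine Finset.sum_congr rfl fun k _ => ?_
    exact integral_fintype_prod_eq_prod (f := h k)
  rw [e0]
  have e1 : ∀ k, ∏ i, ∫ x, h k i x ∂(μ i) ≤ η * ∏ i, ∫ x, nsq (Y x) ∂(μ i) := by
    intro k
    rw [← Finset.mul_prod_erase Finset.univ (fun i => ∫ x, h k i x ∂(μ i)) (Finset.mem_univ k),
      ← Finset.mul_prod_erase Finset.univ (fun i => ∫ x, nsq (Y x) ∂(μ i)) (Finset.mem_univ k)]
    have e2 : ∫ x, h k k x ∂(μ k) = ∫ x in (G k)ᶜ, nsq (Y x) ∂(μ k) := by
      simp only [h, if_true]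
      rw [integral_indicator (hG k).compl]
    have e3 : ∏ i ∈ Finset.univ.erase k, ∫ x, h k i x ∂(μ i) = ∏ i ∈ Finset.univ.erase k, ∫ x, nsq (Y x) ∂(μ i) := by
      refine Finset.prod_congr rfl fun i hi => ?_
      have : i ≠ k := Finset.ne_of_mem_erase hi
      simp only [h, this, if_false]
    rw [e2, e3, ← mul_assoc]
    exact mul_le_mul_of_nonneg_right (hη k) (Finset.prod_nonneg fun i _ => hT0 i)
  calc c * ∏ i, ∫ x, nsq (Y x) ∂(μ i) + Cm * ∑ k, ∏ i, ∫ x, h k i x ∂(μ i)
      ≤ c * ∏ i, ∫ x, nsq (Y x) ∂(μ i) + Cm * ∑ k : n, η * ∏ i, ∫ x, nsq (Y x) ∂(μ i) := by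
        gcongr with k _
        exact e1 k
    _ = _ := by
        rw [Finset.sum_const, Finset.card_univ, nsmul_eq_mul]; ring

end Pool.Agent.Helper76.Sel
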