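import Mathlib
import Pool.Agent.Helper76.Sel.MixInt

set_option autoImplicit false

open Matrix Finset MeasureTheory
open scoped Pointwise

namespace Pool.Agent.Helper76.Sel

variable {d : ℕ}

/-- the lift `(1, x)` -/
def zz (x : Fin d → ℝ) : Fin (d + 1) → ℝ := Fin.cons 1 x

/-- the lifted point in the coordinates `g` -/
def YY (g : Matrix (Fin (d + 1)) (Fin (d + 1)) ℝ) (x : Fin d → ℝ) : Fin (d + 1) → ℝ := g *ᵥ zz x

theorem continuous_zz : Continuous (zz : (Fin d → ℝ) → _) := by
  refine continuous_pi fun i => ?_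
  refine Fin.cases ?_ (fun i => ?_) i
  · simpa [zz] using continuous_const
  · simpa [zz] using continuous_apply i

theorem continuous_YY (g : Matrix (Fin (d + 1)) (Fin (d + 1)) ℝ) : Continuous (YY g) := by
  unfold YY
  exact Continuous.matrix_mulVec continuous_const continuous_zz

theorem continuous_nsq {n : Type} [Fintype n] : Continuous (nsq : (n → ℝ) → ℝ) := by
  unfold nsq; fun_prop

theorem nsq_smul {n : Type} [Fintype n] (c : ℝ) (v : n → ℝ) : nsq (c • v) = c ^ 2 * nsq v := by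
  unfold nsq
  rw [Finset.mul_sum]
  refine Finset.sum_congr rfl fun a _ => ?_
  simp [mul_pow]

theorem vol_ball (r : ℝ) (hr : 0 ≤ r) :
    volume {w : Fin (d + 1) → ℝ | nsq w < r ^ 2} ≤ ENNReal.ofReal ((2 * r) ^ (d + 1)) := by
  have h1 : {w : Fin (d + 1) → ℝ | nsq w < r ^ 2} ⊆ Set.Icc (fun _ => -r) (fun _ => r) := by
    intro w hw
    have h2 : ∀ a, |w a| ≤ r := by
      intro a
      have h3 : w a ^ 2 ≤ r ^ 2 := (sq_le_nsq w a).trans (le_of_lt hw)
      exact abs_le_of_sq_le_sq h3 hr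
    exact ⟨fun a => (abs_le.mp (h2 a)).1, fun a => (abs_le.mp (h2 a)).2⟩
  refine (measure_mono h1).trans ?_
  rw [Real.volume_Icc_pi]
  have h2 : (r - -r) = 2 * r := by ring
  simp only [h2, Finset.prod_const, Finset.card_univ, Fintype.card_fin]
  rw [ENNReal.ofReal_pow (by positivity)]

theorem vol_image (g : Matrix (Fin (d + 1)) (Fin (d + 1)) ℝ) (hg : |g.det| = 1) (r : ℝ) (hr : 0 ≤ r) :
    volume {w : Fin (d + 1) → ℝ | nsq (g *ᵥ w) < r ^ 2} ≤ ENNReal.ofReal ((2 * r) ^ (d + 1)) := by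
  have h1 : {w : Fin (d + 1) → ℝ | nsq (g *ᵥ w) < r ^ 2} =
      (Matrix.toLin' g) ⁻¹' {w : Fin (d + 1) → ℝ | nsq w < r ^ 2} := by
    ext w
    simp [Matrix.toLin'_apply]
  have h0 : g.det ≠ 0 := by
    intro h; rw [h] at hg; simp at hg
  rw [h1, Measure.addHaar_preimage_linearMap _ (by rw [LinearMap.det_toLin']; exact h0),
    LinearMap.det_toLin', abs_inv, hg]
  simpa using vol_ball r hr

theorem smul_zz (g : Matrix (Fin (d + 1)) (Fin (d + 1)) ℝ) (s : ℝ) (y : Fin d → ℝ) :
    g *ᵥ (Fin.cons s (s • y) : Fin (d + 1) → ℝ) = s • YY g y := by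
  unfold YY
  rw [← Matrix.mulVec_smul]
  congr 1
  funext i
  refine Fin.cases ?_ (fun i => ?_) i
  · simp [zz]
  · simp [zz]

theorem vol_small (g : Matrix (Fin (d + 1)) (Fin (d + 1)) ℝ) (hg : |g.det| = 1) (r : ℝ) (hr : 0 ≤ r) :
    volume {x : Fin d → ℝ | nsq (YY g x) < r ^ 2} ≤ ENNReal.ofReal ((4 * r) ^ (d + 1)) := by
  set A : Set (Fin d → ℝ) := {x | nsq (YY g x) < r ^ 2} with hA
  set B : Set (Fin (d + 1) → ℝ) := {w | nsq (g *ᵥ w) < r ^ 2} with hB
  have hBm : MeasurableSet B := by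
    have : IsOpen B := isOpen_lt (continuous_nsq.comp (Continuous.matrix_mulVec continuous_const continuous_id))
      continuous_const
    exact this.measurableSet
  have hmp := volume_preserving_piFinSuccAbove (fun _ : Fin (d + 1) => ℝ) 0
  have h1 : volume B = volume ((MeasurableEquiv.piFinSuccAbove (fun _ : Fin (d + 1) => ℝ) 0).symm ⁻¹' B) := by
    exact (hmp.symm.measure_preimage hBm.nullMeasurableSet).symm
  have h2 : volume ((MeasurableEquiv.piFinSuccAbove (fun _ : Fin (d + 1) => ℝ) 0).symm ⁻¹' B)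
      = ∫⁻ s : ℝ, volume (Prod.mk s ⁻¹' ((MeasurableEquiv.piFinSuccAbove (fun _ : Fin (d + 1) => ℝ) 0).symm ⁻¹' B)) :=
    Measure.prod_apply ((MeasurableEquiv.measurable _) hBm)
  have h3 : ∀ s ∈ Set.Icc (1 / 2 : ℝ) 1, ENNReal.ofReal ((1 / 2) ^ d) * volume A ≤
      volume (Prod.mk s ⁻¹' ((MeasurableEquiv.piFinSuccAbove (fun _ : Fin (d + 1) => ℝ) 0).symm ⁻¹' B)) := by
    intro s hs
    have hs0 : 0 ≤ s := by linarith [hs.1]
    have h4 : s • A ⊆ Prod.mk s ⁻¹' ((MeasurableEquiv.piFinSuccAbove (fun _ : Fin (d + 1) => ℝ) 0).symm ⁻¹' B) := by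
      rintro _ ⟨y, hy, rfl⟩
      simp only [Set.mem_preimage]
      have h5 : (MeasurableEquiv.piFinSuccAbove (fun _ : Fin (d + 1) => ℝ) 0).symm (s, s • y)
          = (Fin.cons s (s • y) : Fin (d + 1) → ℝ) := by
        rw [MeasurableEquiv.piFinSuccAbove_symm_apply]
        exact Fin.insertNth_zero' (s) (s • y)
      show (MeasurableEquiv.piFinSuccAbove (fun _ : Fin (d + 1) => ℝ) 0).symm (s, s • y) ∈ B
      rw [h5]
      show nsq (g *ᵥ (Fin.cons s (s • y) : Fin (d + 1) → ℝ)) < r ^ 2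
      rw [smul_zz, nsq_smul]
      have h6 : nsq (YY g y) < r ^ 2 := hy
      have h7 : s ^ 2 ≤ 1 := by nlinarith [hs.1, hs.2]
      have h8 := nsq_nonneg (YY g y)
      nlinarith
    refine le_trans ?_ (measure_mono h4)
    rw [Measure.addHaar_smul]
    gcongr
    rw [Module.finrank_fin_fun, abs_of_nonneg (by positivity)]
    exact pow_le_pow_left₀ (by norm_num) hs.1 d
  have h4 : ENNReal.ofReal (1 / 2) * (ENNReal.ofReal ((1 / 2) ^ d) * volume A) ≤ volume B := by
    rw [h1, h2]
    calc ENNReal.ofReal (1 / 2) * (ENNReal.ofReal ((1 / 2) ^ d) * volume A)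
        = ∫⁻ s in Set.Icc (1 / 2 : ℝ) 1, (ENNReal.ofReal ((1 / 2) ^ d) * volume A) := by
          rw [setLIntegral_const, Real.volume_Icc, mul_comm]
          norm_num
      _ ≤ ∫⁻ s in Set.Icc (1 / 2 : ℝ) 1, volume (Prod.mk s ⁻¹' ((MeasurableEquiv.piFinSuccAbove (fun _ : Fin (d + 1) => ℝ) 0).symm ⁻¹' B)) :=
          setLIntegral_mono' measurableSet_Icc h3
      _ ≤ _ := setLIntegral_le_lintegral _ _
  have h5 := h4.trans (vol_image g hg r hr)
  rw [← mul_assoc, ← ENNReal.ofReal_mul (by norm_num), ← pow_succ'] at h5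
  have h6 : ENNReal.ofReal ((2 : ℝ) ^ (d + 1)) * (ENNReal.ofReal ((1 / 2) ^ (d + 1)) * volume A) ≤
      ENNReal.ofReal ((2 : ℝ) ^ (d + 1)) * ENNReal.ofReal ((2 * r) ^ (d + 1)) := by gcongr
  rw [← mul_assoc, ← ENNReal.ofReal_mul (by positivity), ← ENNReal.ofReal_mul (by positivity),
    ← mul_pow, ← mul_pow] at h6
  have h7 : (2 * (1 / 2 : ℝ)) ^ (d + 1) = 1 := by norm_num
  rw [h7, ENNReal.ofReal_one, one_mul] at h6
  refine h6.trans (le_of_eq ?_)
  congr 2
  ring

/-- the zero set of a non-zero affine functional is null -/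
theorem affine_null (v : Fin (d + 1) → ℝ) (hv : v ≠ 0) :
    volume {x : Fin d → ℝ | ∑ b, v b * zz x b = 0} = 0 := by
  have hexp : ∀ x : Fin d → ℝ, ∑ b, v b * zz x b = v 0 + ∑ i : Fin d, v i.succ * x i := by
    intro x
    rw [Fin.sum_univ_succ]
    simp [zz]
  by_cases h : ∀ i : Fin d, v i.succ = 0
  · have h0 : v 0 ≠ 0 := by
      intro h0
      apply hv
      funext i
      refine Fin.cases h0 (fun i => h i) i
    have : {x : Fin d → ℝ | ∑ b, v b * zz x b = 0} = ∅ := by
      ext x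
      simp only [Set.mem_setOf_eq, Set.mem_empty_iff_false, iff_false]
      rw [hexp]
      simpa [h] using h0
    rw [this, measure_empty]
  · push Not at h
    obtain ⟨i0, hi0⟩ := h
    let f : (Fin d → ℝ) →ₗ[ℝ] ℝ := ∑ i : Fin d, v i.succ • LinearMap.proj i
    have hf : ∀ x, f x = ∑ i : Fin d, v i.succ * x i := by
      intro x
      simp [f, LinearMap.sum_apply]
    have hne : LinearMap.ker f ≠ ⊤ := by
      intro h
      have h1 : f (Pi.single i0 1) = 0 := by
        rw [← LinearMap.mem_ker, h]; trivial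
      rw [hf] at h1
      rw [Finset.sum_eq_single i0] at h1
      · simp at h1
        exact hi0 h1
      · intro b _ hb
        simp [Pi.single_apply, hb]
      · simp
    rcases Set.eq_empty_or_nonempty {x : Fin d → ℝ | ∑ b, v b * zz x b = 0} with he | ⟨x0, hx0⟩
    · rw [he, measure_empty]
    · have h1 : {x : Fin d → ℝ | ∑ b, v b * zz x b = 0} = (fun x => x + -x0) ⁻¹' (LinearMap.ker f : Set (Fin d → ℝ)) := by
        ext x
        simp only [Set.mem_setOf_eq, Set.mem_preimage, SetLike.mem_coe, LinearMap.mem_ker, map_add, map_neg]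
        have h2 : ∑ b, v b * zz x0 b = 0 := hx0
        rw [hexp] at h2 ⊢
        rw [hf, hf]
        constructor <;> intro h3 <;> linarith
      rw [h1, measure_preimage_add_right]
      exact Measure.addHaar_submodule _ _ hne

section AAlemmas
variable {n X : Type} [Fintype n] [DecidableEq n] [MeasurableSpace X]

theorem AA_symm (μ : Measure X) (Y : X → n → ℝ) (a b : n) : AA μ Y a b = AA μ Y b a := by
  simp only [AA, Matrix.of_apply]
  congr 1
  funext x
  ring

theorem qf_AA (μ : Measure X) (Y : X → n → ℝ) (hint : ∀ a b, Integrable (fun x => Y x a * Y x b) μ)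
    (v : n → ℝ) : qf (AA μ Y) v = ∫ x, (∑ a, v a * Y x a) ^ 2 ∂μ := by
  have h1 : (fun x => (∑ a, v a * Y x a) ^ 2) = fun x => ∑ a, ∑ b, v a * v b * (Y x a * Y x b) := by
    funext x
    rw [sq, Finset.sum_mul_sum]
    refine Finset.sum_congr rfl fun a _ => Finset.sum_congr rfl fun b _ => by ring
  rw [h1, integral_finsetSum _ fun a _ => integrable_finsetSum _ fun b _ => (hint a b).const_mul _]
  unfold qf
  refine Finset.sum_congr rfl fun a _ => ?_
  rw [integral_finsetSum _ fun b _ => (hint a b).const_mul _]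
  refine Finset.sum_congr rfl fun b _ => ?_
  rw [integral_const_mul]
  rfl

theorem PSD_AA (μ : Measure X) (Y : X → n → ℝ) (hint : ∀ a b, Integrable (fun x => Y x a * Y x b) μ) :
    PSD (AA μ Y) :=
  ⟨AA_symm μ Y, fun v => by rw [qf_AA μ Y hint]; exact integral_nonneg fun x => sq_nonneg _⟩

theorem trace_AA (μ : Measure X) (Y : X → n → ℝ) (hint : ∀ a b, Integrable (fun x => Y x a * Y x b) μ) :
    ∑ a, AA μ Y a a = ∫ x, nsq (Y x) ∂μ := by
  unfold nsq
  rw [integral_finsetSum _ fun a _ => by simpa [sq] using hint a a]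
  refine Finset.sum_congr rfl fun a _ => ?_
  simp only [AA, Matrix.of_apply, sq]

end AAlemmas

theorem integrable_zz (U : Set (Fin d → ℝ)) (hU : IsCompact U) (a b : Fin (d + 1)) :
    Integrable (fun x => zz x a * zz x b) (volume.restrict U) := by
  have : Continuous (fun x : Fin d → ℝ => zz x a * zz x b) :=
    ((continuous_apply a).comp continuous_zz).mul ((continuous_apply b).comp continuous_zz)
  exact this.continuousOn.integrableOn_compact hU

theorem integrable_YY (g : Matrix (Fin (d + 1)) (Fin (d + 1)) ℝ) (U : Set (Fin d → ℝ)) (hU : IsCompact U)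
    (a b : Fin (d + 1)) : Integrable (fun x => YY g x a * YY g x b) (volume.restrict U) := by
  have : Continuous (fun x : Fin d → ℝ => YY g x a * YY g x b) :=
    ((continuous_apply a).comp (continuous_YY g)).mul ((continuous_apply b).comp (continuous_YY g))
  exact this.continuousOn.integrableOn_compact hU

theorem qf_zz_pos (U : Set (Fin d → ℝ)) (hU : IsCompact U) (hpos : 0 < volume U) (v : Fin (d + 1) → ℝ)
    (hv : v ≠ 0) : 0 < qf (AA (volume.restrict U) zz) v := by
  rw [qf_AA _ _ (integrable_zz U hU)]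
  have hc : Continuous (fun x : Fin d → ℝ => (∑ a, v a * zz x a) ^ 2) := by
    refine Continuous.pow (continuous_finsetSum _ fun a _ => ?_) 2
    exact continuous_const.mul ((continuous_apply a).comp continuous_zz)
  have hi : IntegrableOn (fun x : Fin d → ℝ => (∑ a, v a * zz x a) ^ 2) U := hc.continuousOn.integrableOn_compact hU
  rw [setIntegral_pos_iff_support_of_nonneg_ae (Filter.Eventually.of_forall fun x => sq_nonneg _) hi]
  have h1 : Function.support (fun x : Fin d → ℝ => (∑ a, v a * zz x a) ^ 2) ∩ U = U \ {x : Fin d → ℝ | ∑ b, v b * zz x b = 0} := by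
    ext x
    simp only [Function.mem_support, Set.mem_inter_iff, Set.mem_diff, Set.mem_setOf_eq, ne_eq,
      OfNat.ofNat_ne_zero, not_false_eq_true, pow_eq_zero_iff]
    tauto
  rw [h1, measure_diff_null (affine_null v hv)]
  exact hpos

theorem TT_zz (g : Matrix (Fin (d + 1)) (Fin (d + 1)) ℝ) (U : Set (Fin d → ℝ)) (hU : IsCompact U) :
    TT (AA (volume.restrict U) zz) g = ∫ x in U, nsq (YY g x) := by
  rw [← trace_AA _ _ (integrable_YY g U hU)]
  unfold TT
  refine Finset.sum_congr rfl fun a _ => ?_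
  rw [qf_AA _ _ (integrable_zz U hU)]
  simp only [AA, Matrix.of_apply]
  congr 1
  funext x
  rw [sq]
  rfl

theorem qf_zz (g : Matrix (Fin (d + 1)) (Fin (d + 1)) ℝ) (U : Set (Fin d → ℝ)) (hU : IsCompact U)
    (v : Fin (d + 1) → ℝ) :
    qf (AA (volume.restrict U) zz) (fun b => ∑ c, v c * g c b) = qf (AA (volume.restrict U) (YY g)) v := by
  rw [qf_AA _ _ (integrable_zz U hU), qf_AA _ _ (integrable_YY g U hU)]
  congr 1
  funext x
  congr 1
  simp only [YY, Matrix.mulVec, dotProduct, Finset.mul_sum, Finset.sum_mul]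
  rw [Finset.sum_comm]
  refine Finset.sum_congr rfl fun b _ => Finset.sum_congr rfl fun c _ => by ring

theorem exists_iso {ι : Type} [Fintype ι] (U : ι → Set (Fin d → ℝ)) (hU : ∀ k, IsCompact (U k))
    (hpos : ∀ k, 0 < volume (U k)) (m : ℕ) (hm : 0 < m) (hcard : Fintype.card ι = (d + 1) * m) :
    ∃ g : Matrix (Fin (d + 1)) (Fin (d + 1)) ℝ, |g.det| = 1 ∧ ∀ v, 
      ∑ k, qf (AA (volume.restrict (U k)) (YY g)) v / (∫ x in U k, nsq (YY g x)) = m * ∑ a, v a ^ 2 := by
  obtain ⟨g, hg, hiso⟩ := isotropic (fun k => AA (volume.restrict (U k)) zz)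
    (fun k => AA_symm _ _) (fun k v hv => qf_zz_pos (U k) (hU k) (hpos k) v hv) m hm
    (by rw [hcard, Fintype.card_fin])
  -- scaling
  have hD : (0 : ℝ) < |g.det| := abs_pos.mpr hg
  set l : ℝ := |g.det| ^ (-(1 / (d + 1 : ℝ))) with hl
  have hl0 : 0 < l := Real.rpow_pos_of_pos hD _
  have hld : l ^ (d + 1) * |g.det| = 1 := by
    rw [hl, ← Real.rpow_natCast, ← Real.rpow_mul hD.le]
    have : (-(1 / (d + 1 : ℝ)) * ((d + 1 : ℕ) : ℝ)) = -1 := by
      push_cast
      field_simp
    rw [this, Real.rpow_neg_one]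
    exact inv_mul_cancel₀ hD.ne'
  refine ⟨l • g, ?_, ?_⟩
  · rw [Matrix.det_smul, Fintype.card_fin, abs_mul, abs_of_pos (pow_pos hl0 _)]
    exact hld
  · have hY : ∀ x, YY (l • g) x = l • YY g x := by
      intro x
      unfold YY
      rw [Matrix.smul_mulVec]
    have h1 : ∀ k v, qf (AA (volume.restrict (U k)) (YY (l • g))) v = l ^ 2 * qf (AA (volume.restrict (U k)) (YY g)) v := by
      intro k v
      rw [qf_AA _ _ (integrable_YY _ _ (hU k)), qf_AA _ _ (integrable_YY _ _ (hU k)), ← integral_const_mul]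
      congr 1
      funext x
      rw [hY, ← mul_pow, Finset.mul_sum]
      congr 1
      refine Finset.sum_congr rfl fun a _ => ?_
      simp only [Pi.smul_apply, smul_eq_mul]
      ring
    have h2 : ∀ k, ∫ x in U k, nsq (YY (l • g) x) = l ^ 2 * ∫ x in U k, nsq (YY g x) := by
      intro k
      rw [← integral_const_mul]
      congr 1
      funext x
      rw [hY, nsq_smul]
    have h3 : ∀ v : Fin (d + 1) → ℝ, ∑ a, v a ^ 2 = 1 →
        ∑ k, qf (AA (volume.restrict (U k)) (YY (l • g))) v / (∫ x in U k, nsq (YY (l • g) x)) = m := by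
      intro v hv
      rw [← hiso v hv]
      refine Finset.sum_congr rfl fun k _ => ?_
      rw [h1, h2, qf_zz g (U k) (hU k), TT_zz g (U k) (hU k)]
      exact mul_div_mul_left _ _ (pow_ne_zero 2 hl0.ne')
    intro v
    by_cases hv : v = 0
    · subst hv
      have : ∀ S : Matrix (Fin (d + 1)) (Fin (d + 1)) ℝ, qf S 0 = 0 := by
        intro S; simp [qf]
      simp [this]
    · have hs : 0 < ∑ a, v a ^ 2 := by
        refine lt_of_le_of_ne (Finset.sum_nonneg fun a _ => sq_nonneg _) ?_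
        intro h
        apply hv
        funext a
        have := (Finset.sum_eq_zero_iff_of_nonneg (fun a _ => sq_nonneg (v a))).mp h.symm a (Finset.mem_univ a)
        exact pow_eq_zero_iff (two_ne_zero) |>.mp this
      set s : ℝ := Real.sqrt (∑ a, v a ^ 2) with hs'
      have hs1 : 0 < s := Real.sqrt_pos.mpr hs
      have hs2 : s ^ 2 = ∑ a, v a ^ 2 := Real.sq_sqrt hs.le
      have h4 := h3 (s⁻¹ • v) (by
        simp only [Pi.smul_apply, smul_eq_mul, mul_pow, ← Finset.mul_sum]
        rw [← hs2]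
        field_simp)
      have h5 : v = s • (s⁻¹ • v) := by
        rw [smul_smul, mul_inv_cancel₀ hs1.ne', one_smul]
      have h6 : ∀ k, qf (AA (volume.restrict (U k)) (YY (l • g))) v = s ^ 2 * qf (AA (volume.restrict (U k)) (YY (l • g))) (s⁻¹ • v) := by
        intro k
        conv_lhs => rw [h5]
        rw [qf_smul]
      rw [← hs2, mul_comm (m : ℝ), ← h4, Finset.mul_sum]
      refine Finset.sum_congr rfl fun k _ => ?_
      rw [h6, mul_div_assoc]

end Pool.Agent.Helper76.Sel
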