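import Mathlib
import Pool.Agent.Helper76.Sel.Lift

set_option autoImplicit false

open Matrix Finset MeasureTheory
open scoped Pointwise

namespace Pool.Agent.Helper76.Sel

variable {d : ℕ}

theorem measurableSet_lt (g : Matrix (Fin (d + 1)) (Fin (d + 1)) ℝ) (r : ℝ) :
    MeasurableSet {x : Fin d → ℝ | nsq (YY g x) < r} :=
  (isOpen_lt (continuous_nsq.comp (continuous_YY g)) continuous_const).measurableSet

theorem integrableOn_nsq (g : Matrix (Fin (d + 1)) (Fin (d + 1)) ℝ) (U : Set (Fin d → ℝ)) (hU : IsCompact U) :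
    IntegrableOn (fun x => nsq (YY g x)) U :=
  (continuous_nsq.comp (continuous_YY g)).continuousOn.integrableOn_compact hU

/-- the trace is bounded below. -/
theorem trace_lower (g : Matrix (Fin (d + 1)) (Fin (d + 1)) ℝ) (hg : |g.det| = 1) (U : Set (Fin d → ℝ))
    (hU : IsCompact U) (h1 : 1 / 2 < volume U) : 1 / 1024 ≤ ∫ x in U, nsq (YY g x) := by
  set A : Set (Fin d → ℝ) := {x | nsq (YY g x) < (1 / 16) ^ 2} with hA
  have hAm : MeasurableSet A := measurableSet_lt g _
  have hvA : volume A ≤ ENNReal.ofReal (1 / 4) := by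
    refine (vol_small g hg (1 / 16) (by norm_num)).trans ?_
    apply ENNReal.ofReal_le_ofReal
    have : (4 * (1 / 16 : ℝ)) = 1 / 4 := by norm_num
    rw [this, pow_succ]
    have h2 : (1 / 4 : ℝ) ^ d ≤ 1 := pow_le_one₀ (by norm_num) (by norm_num)
    linarith
  have hUfin : volume U ≠ ⊤ := hU.measure_lt_top.ne
  have hAfin : volume A ≠ ⊤ := (lt_of_le_of_lt hvA ENNReal.ofReal_lt_top).ne
  have hd : ENNReal.ofReal (1 / 4) ≤ volume (U \ A) := by
    have h2 : volume U ≤ volume (U \ A) + volume A := by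
      calc volume U ≤ volume ((U \ A) ∪ A) := measure_mono (by intro x hx; by_cases h : x ∈ A <;> simp [h, hx])
        _ ≤ _ := measure_union_le _ _
    by_contra hcon
    push Not at hcon
    have h3 : volume U < ENNReal.ofReal (1 / 4) + ENNReal.ofReal (1 / 4) :=
      lt_of_le_of_lt h2 (ENNReal.add_lt_add_of_lt_of_le hAfin hcon hvA)
    rw [← ENNReal.ofReal_add (by norm_num) (by norm_num)] at h3
    have h4 : ENNReal.ofReal (1 / 4 + 1 / 4) = 1 / 2 := by
      rw [show (1 / 4 + 1 / 4 : ℝ) = 1 / 2 by norm_num]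
      rw [ENNReal.ofReal_div_of_pos (by norm_num)]
      simp
    rw [h4] at h3
    exact absurd (h1.trans h3) (lt_irrefl _)
  have hdfin : volume (U \ A) ≠ ⊤ := (lt_of_le_of_lt (measure_mono Set.diff_subset) hUfin.lt_top).ne
  have hUm : MeasurableSet (U \ A) := hU.measurableSet.diff hAm
  have h5 : volume.real (U \ A) • ((1 / 16 : ℝ) ^ 2) ≤ ∫ x in U \ A, nsq (YY g x) := by
    refine setIntegral_ge_of_const_le hUm hdfin (fun x hx => ?_) ((integrableOn_nsq g U hU).mono_set Set.diff_subset)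
    have := hx.2
    simp only [hA, Set.mem_setOf_eq, not_lt] at this
    exact this
  have h6 : (1 / 4 : ℝ) ≤ volume.real (U \ A) := by
    rw [Measure.real, ← ENNReal.ofReal_le_iff_le_toReal hdfin]
    exact hd
  have h7 : ∫ x in U \ A, nsq (YY g x) ≤ ∫ x in U, nsq (YY g x) :=
    setIntegral_mono_set (integrableOn_nsq g U hU) (Filter.Eventually.of_forall fun x => nsq_nonneg _)
      (Filter.Eventually.of_forall fun x hx => hx.1)
  rw [smul_eq_mul] at h5
  nlinarith

theorem small_part (g : Matrix (Fin (d + 1)) (Fin (d + 1)) ℝ) (U : Set (Fin d → ℝ))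
    (h1 : volume U ≤ 1) (r : ℝ) (hr : 0 ≤ r) :
    ∫ x in {x | r ≤ nsq (YY g x)}ᶜ, nsq (YY g x) ∂(volume.restrict U) ≤ r := by
  have he : {x | r ≤ nsq (YY g x)}ᶜ = {x : Fin d → ℝ | nsq (YY g x) < r} := by
    ext x; simp
  rw [he]
  have hm := measurableSet_lt g r
  have hle : (volume.restrict U) {x : Fin d → ℝ | nsq (YY g x) < r} ≤ 1 := by
    calc (volume.restrict U) {x : Fin d → ℝ | nsq (YY g x) < r} ≤ (volume.restrict U) Set.univ :=
          measure_mono (Set.subset_univ _)
      _ = volume U := by simp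
      _ ≤ 1 := h1
  have h2 := norm_setIntegral_le_of_norm_le_const (μ := volume.restrict U) (s := {x : Fin d → ℝ | nsq (YY g x) < r})
    (f := fun x => nsq (YY g x)) (C := r) (lt_of_le_of_lt hle ENNReal.one_lt_top) (fun x hx => by
      rw [Real.norm_of_nonneg (nsq_nonneg _)]
      exact le_of_lt hx)
  refine (le_abs_self _).trans (h2.trans ?_)
  have h3 : (volume.restrict U).real {x : Fin d → ℝ | nsq (YY g x) < r} ≤ 1 := by
    rw [Measure.real]
    exact ENNReal.toReal_le_of_le_ofReal (by norm_num) (by simpa using hle)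
  nlinarith

theorem exists_points (d : ℕ) {κ : ℝ} (hκ : 0 < κ) : ∃ r : ℝ, 0 < r ∧
    ∀ g : Matrix (Fin (d + 1)) (Fin (d + 1)) ℝ, |g.det| = 1 →
    ∀ U : Fin (d + 1) → Set (Fin d → ℝ), (∀ i, IsCompact (U i)) → (∀ i, 1 / 2 < volume (U i)) →
      (∀ i, volume (U i) ≤ 1) →
      κ / 2 ≤ mix (fun i => (∫ x in U i, nsq (YY g x))⁻¹ • AA (volume.restrict (U i)) (YY g)) →
      ∃ x : Fin (d + 1) → (Fin d → ℝ), (∀ i, x i ∈ U i) ∧ (∀ i, r ^ 2 ≤ nsq (YY g (x i))) ∧
        κ / 8 * ∏ i, nsq (YY g (x i)) < (Matrix.of fun i => YY g (x i)).det ^ 2 := by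
  set Cm : ℝ := ((Fintype.card (Fin (d + 1))).factorial : ℝ) ^ 2 * Fintype.card (Fin (d + 1)) with hCm
  have hCm0 : 0 < Cm := by
    rw [hCm, Fintype.card_fin]
    positivity
  set η : ℝ := κ / (8 * Cm) with hη
  have hη0 : 0 < η := by positivity
  refine ⟨Real.sqrt (η / 1024), Real.sqrt_pos.mpr (by positivity), ?_⟩
  intro g hg U hU h1 h2 hmix
  rw [Real.sq_sqrt (by positivity)]
  by_contra hcon
  push Not at hcon
  have hT : ∀ i, 1 / 1024 ≤ ∫ x in U i, nsq (YY g x) := fun i => trace_lower g hg (U i) (hU i) (h1 i)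
  have hT0 : ∀ i, 0 < ∫ x in U i, nsq (YY g x) := fun i => lt_of_lt_of_le (by norm_num) (hT i)
  have key := mix_le (fun i => volume.restrict (U i)) (YY g) (fun i => integrable_YY g (U i) (hU i)) (κ / 8) η
    (by positivity) (fun _ => {x | η / 1024 ≤ nsq (YY g x)}) (fun i => by
      have h7 : {x : Fin d → ℝ | η / 1024 ≤ nsq (YY g x)} = {x | nsq (YY g x) < η / 1024}ᶜ := by
        ext x; simp
      rw [h7]
      exact (measurableSet_lt g (η / 1024)).compl) (by
      rw [← Measure.restrict_pi_pi]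
      have hm : MeasurableSet (Set.univ.pi fun i => U i) := MeasurableSet.univ_pi fun i => (hU i).measurableSet
      filter_upwards [ae_restrict_mem hm] with x hx hxG
      exact hcon x (fun i => hx i (Set.mem_univ i)) (fun i => hxG i)) (fun i => by
      refine (small_part g (U i) (h2 i) _ (by positivity)).trans ?_
      have := hT i
      rw [div_eq_mul_one_div]
      exact mul_le_mul_of_nonneg_left (hT i) hη0.le)
  rw [mix_smul] at hmix
  have hP : 0 < ∏ i, ∫ x in U i, nsq (YY g x) := Finset.prod_pos fun i _ => hT0 i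
  rw [Finset.prod_inv_distrib] at hmix
  have h3 : κ / 2 * ∏ i, ∫ x in U i, nsq (YY g x) ≤ mix (fun i => AA (volume.restrict (U i)) (YY g)) := by
    have := mul_le_mul_of_nonneg_right hmix hP.le
    calc _ ≤ _ := this
      _ = _ := by field_simp
  have h4 : κ / 8 + ((Fintype.card (Fin (d + 1))).factorial : ℝ) ^ 2 * Fintype.card (Fin (d + 1)) * η = κ / 4 := by
    rw [← hCm, hη]
    field_simp
    norm_num
  rw [h4] at key
  have h5 := h3.trans key
  have h6 : κ / 2 ≤ κ / 4 := le_of_mul_le_mul_right h5 hP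
  linarith

end Pool.Agent.Helper76.Sel
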