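import Mathlib
import Pool.Agent.Helper76.Sel.Select

set_option autoImplicit false

open Matrix Finset MeasureTheory

namespace Pool.Agent.Helper76.Sel

theorem mix_bound {n : Type} [Fintype n] [DecidableEq n] (M : n → Matrix n n ℝ)
    (h : ∀ i a b, |M i a b| ≤ 1) : mix M ≤ ((Fintype.card n).factorial : ℝ) ^ 2 := by
  unfold mix
  calc ∑ σ : Equiv.Perm n, ∑ τ : Equiv.Perm n, sg σ * sg τ * ∏ i, M i (σ i) (τ i)
      ≤ ∑ σ : Equiv.Perm n, ∑ τ : Equiv.Perm n, (1 : ℝ) := by
        refine Finset.sum_le_sum fun σ _ => Finset.sum_le_sum fun τ _ => ?_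
        refine (le_abs_self _).trans ?_
        rw [abs_mul, abs_mul, abs_sg, abs_sg, one_mul, one_mul, Finset.abs_prod]
        exact Finset.prod_le_one (fun _ _ => abs_nonneg _) fun i _ => h i _ _
    _ = _ := by
      simp only [Finset.sum_const, Finset.card_univ, Fintype.card_perm, nsmul_eq_mul, mul_one]
      ring

theorem card_coord {d m : ℕ} (i : Fin (d + 1)) (B : Finset (Fin m)) :
    ∑ J : Fin (d + 1) → Fin m, (if J i ∈ B then (1 : ℝ) else 0) = B.card * (m : ℝ) ^ d := by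
  classical
  rw [Finset.sum_boole]
  have h1 : (univ.filter fun J : Fin (d + 1) → Fin m => J i ∈ B) =
      Fintype.piFinset (fun i' : Fin (d + 1) => if i' = i then B else univ) := by
    ext J
    simp only [Finset.mem_filter, Finset.mem_univ, true_and, Fintype.mem_piFinset]
    constructor
    · intro h i'
      split_ifs with h2
      · rw [h2]; exact h
      · exact Finset.mem_univ _
    · intro h
      have := h i
      simpa using this
  rw [h1, Fintype.card_piFinset, ← Finset.mul_prod_erase univ _ (Finset.mem_univ i)]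
  have h2 : ∏ i' ∈ univ.erase i, (if i' = i then B else univ).card = m ^ d := by
    have h3 : ∀ i' ∈ (univ : Finset (Fin (d + 1))).erase i, (if i' = i then B else univ).card = m := by
      intro i' hi'
      rw [if_neg (Finset.ne_of_mem_erase hi')]
      simp
    rw [Finset.prod_congr rfl h3, Finset.prod_const, Finset.card_erase_of_mem (Finset.mem_univ i)]
    simp
  rw [h2]
  simp

theorem typical_exists {d m : ℕ} (hm : 0 < m) (f : (Fin (d + 1) → Fin m) → ℝ) (C κ : ℝ) (hC : 0 < C)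
    (hκ : 0 < κ) (hf : ∀ J, f J ≤ C) (hsum : κ * (m : ℝ) ^ (d + 1) ≤ ∑ J, f J)
    (Bad : Fin (d + 1) → Finset (Fin m)) (hBad : ∀ i, C * (d + 1) * (Bad i).card ≤ κ / 2 * m) :
    ∃ J, (∀ i, J i ∉ Bad i) ∧ κ / 2 ≤ f J := by
  by_contra hcon
  push Not at hcon
  have h1 : ∀ J : Fin (d + 1) → Fin m, f J < κ / 2 + C * ∑ i, (if J i ∈ Bad i then (1 : ℝ) else 0) := by
    intro J
    by_cases h : ∀ i, J i ∉ Bad i
    · have h2 := hcon J h
      have h3 : ∑ i, (if J i ∈ Bad i then (1 : ℝ) else 0) = 0 :=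
        Finset.sum_eq_zero fun i _ => by rw [if_neg (h i)]
      rw [h3]; linarith
    · push Not at h
      obtain ⟨i, hi⟩ := h
      have h3 : (1 : ℝ) ≤ ∑ i, (if J i ∈ Bad i then (1 : ℝ) else 0) := by
        have := Finset.single_le_sum (f := fun i => (if J i ∈ Bad i then (1 : ℝ) else 0))
          (fun i _ => by positivity) (Finset.mem_univ i)
        simpa [hi] using this
      have h4 := hf J
      nlinarith
  have hne : (univ : Finset (Fin (d + 1) → Fin m)).Nonempty := by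
    have : Nonempty (Fin m) := ⟨⟨0, hm⟩⟩
    exact Finset.univ_nonempty
  have h2 := Finset.sum_lt_sum_of_nonempty hne fun J _ => h1 J
  rw [Finset.sum_add_distrib, ← Finset.mul_sum, Finset.sum_comm,
    Finset.sum_congr rfl fun i _ => card_coord i (Bad i)] at h2
  have h3 : ∑ J : Fin (d + 1) → Fin m, κ / 2 = κ / 2 * (m : ℝ) ^ (d + 1) := by
    simp [mul_comm]
  rw [h3] at h2
  have h4 : C * ∑ i : Fin (d + 1), ((Bad i).card * (m : ℝ) ^ d) ≤ κ / 2 * (m : ℝ) ^ (d + 1) := by
    have h5 : ∀ i, C * ((Bad i).card * (m : ℝ) ^ d) ≤ κ / 2 * (m : ℝ) ^ (d + 1) / (d + 1) := by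
      intro i
      rw [le_div_iff₀ (by positivity)]
      have h6 := mul_le_mul_of_nonneg_right (hBad i) (pow_nonneg (Nat.cast_nonneg m : (0 : ℝ) ≤ m) d)
      calc _ = _ := by ring
        _ ≤ _ := h6
        _ = _ := by ring
    rw [Finset.mul_sum]
    refine (Finset.sum_le_sum fun i _ => h5 i).trans (le_of_eq ?_)
    rw [Finset.sum_const, Finset.card_univ, Fintype.card_fin, nsmul_eq_mul]
    push_cast
    field_simp
  linarith

/-- unit vector -/
noncomputable def un {n : Type} [Fintype n] (w : n → ℝ) : n → ℝ := (Real.sqrt (nsq w))⁻¹ • w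

theorem nsq_un {n : Type} [Fintype n] (w : n → ℝ) (hw : 0 < nsq w) : nsq (un w) = 1 := by
  unfold un
  rw [nsq_smul, inv_pow, Real.sq_sqrt hw.le]
  exact inv_mul_cancel₀ hw.ne'

theorem det_un {n : Type} [Fintype n] [DecidableEq n] (w : n → n → ℝ) :
    (∏ i, nsq (w i)) * (Matrix.of fun i => un (w i)).det ^ 2 = (Matrix.of w).det ^ 2 ∨ ∃ i, nsq (w i) = 0 := by
  by_cases h : ∃ i, nsq (w i) = 0
  · exact Or.inr h
  · push Not at h
    left
    have h1 : (Matrix.of fun i => un (w i)).det = (∏ i, (Real.sqrt (nsq (w i)))⁻¹) * (Matrix.of w).det := by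
      rw [← Matrix.det_mul_column]
      rfl
    rw [h1, mul_pow, ← Finset.prod_pow, ← mul_assoc, ← Finset.prod_mul_distrib]
    have h2 : ∏ i, (nsq (w i) * (Real.sqrt (nsq (w i)))⁻¹ ^ 2) = 1 := by
      refine Finset.prod_eq_one fun i _ => ?_
      have h3 : 0 < nsq (w i) := lt_of_le_of_ne (nsq_nonneg _) (Ne.symm (h i))
      rw [inv_pow, Real.sq_sqrt h3.le]
      exact mul_inv_cancel₀ h3.ne'
    rw [h2, one_mul]

theorem abs_un_le {n : Type} [Fintype n] [DecidableEq n] (w : n → ℝ) (hw : 0 < nsq w) (a : n) : |un w a| ≤ 1 := by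
  have h1 := sq_le_nsq (un w) a
  rw [nsq_un w hw] at h1
  exact abs_le_one_iff_mul_self_le_one.mpr (by rw [← sq]; exact h1)

theorem select (d : ℕ) : ∃ r δ : ℝ, 0 < r ∧ 0 < δ ∧ ∀ ε : ℝ, 0 < ε → ∃ c : ℝ, 0 < c ∧
    ∀ m : ℕ, 0 < m → ∀ U : Fin (d + 1) → Fin m → Set (Fin d → ℝ), (∀ i j, IsCompact (U i j)) →
      (∀ i j, 1 / 2 < volume (U i j)) → (∀ i j, volume (U i j) ≤ 1) →
      ∃ g : Matrix (Fin (d + 1)) (Fin (d + 1)) ℝ, |g.det| = 1 ∧ ∃ x : Fin (d + 1) → Fin d → ℝ,
        (∀ i, r ^ 2 ≤ nsq (YY g (x i))) ∧ (δ ≤ (Matrix.of fun i => un (YY g (x i))).det ^ 2) ∧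
        ∃ G : Fin (d + 1) → Finset (Fin m), (∀ i, c * m ≤ (G i).card) ∧
          ∀ i, ∀ j ∈ G i, ∃ x' ∈ U i j, r ^ 2 ≤ nsq (YY g x') ∧
            dist (un (YY g x')) (un (YY g (x i))) < ε := by
  classical
  obtain ⟨κ, hκ, hDS⟩ := exists_mix_lower (n := Fin (d + 1))
  obtain ⟨r, hr, hpts⟩ := exists_points d hκ
  refine ⟨r, κ / 8, hr, by positivity, fun ε hε => ?_⟩
  have hcomp : IsCompact (Set.Icc (fun _ => -1 : Fin (d + 1) → ℝ) (fun _ => 1)) := isCompact_Icc
  obtain ⟨t0, -, ht0fin, ht0⟩ := hcomp.finite_cover_balls (half_pos hε)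
  set t : Finset (Fin (d + 1) → ℝ) := ht0fin.toFinset with ht
  set C : ℝ := ((Fintype.card (Fin (d + 1))).factorial : ℝ) ^ 2 with hC
  have hC0 : 0 < C := by rw [hC]; positivity
  set c : ℝ := κ / (2 * C * (d + 1) * (t.card + 1)) with hc
  have hc0 : 0 < c := by positivity
  refine ⟨c, hc0, fun m hm U hU h1 h2 => ?_⟩
  have hm0 : (0 : ℝ) < m := by exact_mod_cast hm
  obtain ⟨g, hg, hiso⟩ := exists_iso (fun k : Fin (d + 1) × Fin m => U k.1 k.2) (fun k => hU _ _)
    (fun k => lt_of_le_of_lt zero_le (h1 k.1 k.2)) m hm (by simp)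
  refine ⟨g, hg, ?_⟩
  have hT0 : ∀ i j, 0 < ∫ x in U i j, nsq (YY g x) := fun i j =>
    lt_of_lt_of_le (by norm_num) (trace_lower g hg (U i j) (hU i j) (h1 i j))
  let N : Fin (d + 1) → Fin m → Matrix (Fin (d + 1)) (Fin (d + 1)) ℝ := fun i j =>
    (∫ x in U i j, nsq (YY g x))⁻¹ • AA (volume.restrict (U i j)) (YY g)
  have hqN : ∀ i j v, qf (N i j) v = qf (AA (volume.restrict (U i j)) (YY g)) v / ∫ x in U i j, nsq (YY g x) := by
    intro i j v
    simp only [N, qf, Matrix.smul_apply, smul_eq_mul]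
    rw [div_eq_inv_mul, Finset.mul_sum]
    refine Finset.sum_congr rfl fun b _ => ?_
    rw [Finset.mul_sum]
    refine Finset.sum_congr rfl fun c _ => by ring
  have hNpsd : ∀ i j, PSD (N i j) := by
    intro i j
    have h3 := PSD_AA _ _ (integrable_YY g (U i j) (hU i j))
    refine ⟨fun a b => ?_, fun v => ?_⟩
    · simp only [N, Matrix.smul_apply]
      rw [h3.1 a b]
    · rw [hqN]
      exact div_nonneg (h3.2 v) (hT0 i j).le
  have hNtr : ∀ i j, ∑ a, N i j a a = 1 := by
    intro i j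
    simp only [N, Matrix.smul_apply, smul_eq_mul]
    rw [← Finset.mul_sum, trace_AA _ _ (integrable_YY g (U i j) (hU i j))]
    exact inv_mul_cancel₀ (hT0 i j).ne'
  let Mb : Fin (d + 1) → Matrix (Fin (d + 1)) (Fin (d + 1)) ℝ := fun i => (m : ℝ)⁻¹ • ∑ j, N i j
  have hqMb : ∀ i v, qf (Mb i) v = (m : ℝ)⁻¹ * ∑ j, qf (N i j) v := by
    intro i v
    simp only [Mb, qf, Matrix.smul_apply, Matrix.sum_apply, smul_eq_mul]
    rw [Finset.sum_comm (s := (univ : Finset (Fin m)))]
    rw [Finset.mul_sum]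
    refine Finset.sum_congr rfl fun b _ => ?_
    rw [Finset.sum_comm (s := (univ : Finset (Fin m)))]
    rw [Finset.mul_sum]
    refine Finset.sum_congr rfl fun c _ => ?_
    rw [← Finset.mul_sum]
    ring
  have hMb : Mb ∈ (DS : Set (Fin (d + 1) → Matrix (Fin (d + 1)) (Fin (d + 1)) ℝ)) := by
    refine ⟨fun i => ⟨fun a b => ?_, fun v => ?_⟩, fun i => ?_, fun v => ?_⟩
    · simp only [Mb, Matrix.smul_apply, Matrix.sum_apply]
      rw [Finset.sum_congr rfl fun j _ => (hNpsd i j).1 a b]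
    · rw [hqMb]
      exact mul_nonneg (by positivity) (Finset.sum_nonneg fun j _ => (hNpsd i j).2 v)
    · simp only [Mb, Matrix.smul_apply, Matrix.sum_apply, smul_eq_mul]
      rw [← Finset.mul_sum, Finset.sum_comm, Finset.sum_congr rfl fun j _ => hNtr i j]
      simp [hm0.ne']
    · rw [Finset.sum_congr rfl fun i _ => hqMb i v, ← Finset.mul_sum]
      have h3 := hiso v
      rw [Fintype.sum_prod_type] at h3
      have h4 : ∑ i, ∑ j, qf (N i j) v = m * ∑ a, v a ^ 2 := by
        rw [← h3]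
        exact Finset.sum_congr rfl fun i _ => Finset.sum_congr rfl fun j _ => hqN i j v
      rw [h4]
      field_simp
  have hmix := hDS Mb hMb
  have hmixe : mix Mb = ((m : ℝ)⁻¹) ^ (d + 1) * ∑ J : Fin (d + 1) → Fin m, mix (fun i => N i (J i)) := by
    have h3 := mix_smul (fun _ => (m : ℝ)⁻¹) (fun i => ∑ j, N i j)
    rw [mix_sum N] at h3
    simpa using h3
  have hsum : κ * (m : ℝ) ^ (d + 1) ≤ ∑ J : Fin (d + 1) → Fin m, mix (fun i => N i (J i)) := by
    rw [hmixe] at hmix
    have h3 := mul_le_mul_of_nonneg_right hmix (pow_nonneg hm0.le (d + 1))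
    refine h3.trans (le_of_eq ?_)
    rw [inv_pow]
    field_simp
  have hCb : ∀ J : Fin (d + 1) → Fin m, mix (fun i => N i (J i)) ≤ C := by
    intro J
    exact mix_bound _ fun i a b => (hNpsd i (J i)).entry (hNtr i (J i)) a b
  -- cells
  let H : Fin (d + 1) → (Fin (d + 1) → ℝ) → Finset (Fin m) := fun i a =>
    univ.filter fun j => ∃ x ∈ U i j, r ^ 2 ≤ nsq (YY g x) ∧ dist (un (YY g x)) a < ε / 2
  let Bad : Fin (d + 1) → Finset (Fin m) := fun i =>
    (t.filter fun a => ((H i a).card : ℝ) < c * m).biUnion (H i)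
  have hBad : ∀ i, C * (d + 1) * (Bad i).card ≤ κ / 2 * m := by
    intro i
    have h3 : ((Bad i).card : ℝ) ≤ t.card * (c * m) := by
      have h4 : ((Bad i).card : ℝ) ≤ ∑ a ∈ t.filter (fun a => ((H i a).card : ℝ) < c * m), ((H i a).card : ℝ) := by
        exact_mod_cast Finset.card_biUnion_le
      refine h4.trans ?_
      calc ∑ a ∈ t.filter (fun a => ((H i a).card : ℝ) < c * m), ((H i a).card : ℝ)
          ≤ ∑ a ∈ t.filter (fun a => ((H i a).card : ℝ) < c * m), c * m := by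
            refine Finset.sum_le_sum fun a ha => ?_
            exact (Finset.mem_filter.mp ha).2.le
        _ = (t.filter (fun a => ((H i a).card : ℝ) < c * m)).card * (c * m) := by simp
        _ ≤ _ := by
          gcongr
          exact Finset.filter_subset _ _
    have h5 : C * (d + 1) * (Bad i).card ≤ C * (d + 1) * (t.card * (c * m)) := by
      gcongr
    refine h5.trans ?_
    have h6 : C * (d + 1) * (t.card * (c * m)) ≤ C * (d + 1) * ((t.card + 1) * (c * m)) := by
      gcongr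
      linarith
    refine h6.trans (le_of_eq ?_)
    rw [hc]
    field_simp
  obtain ⟨J, hJ, hJmix⟩ := typical_exists hm (fun J => mix (fun i => N i (J i))) C κ hC0 hκ hCb hsum Bad hBad
  obtain ⟨x, hxU, hxr, hxdet⟩ := hpts g hg (fun i => U i (J i)) (fun i => hU _ _) (fun i => h1 _ _)
    (fun i => h2 _ _) hJmix
  have hpos : ∀ i, 0 < nsq (YY g (x i)) := fun i => lt_of_lt_of_le (by positivity) (hxr i)
  refine ⟨x, hxr, ?_, ?_⟩
  · rcases det_un (fun i => YY g (x i)) with h3 | ⟨i, hi⟩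
    · have hP : 0 < ∏ i, nsq (YY g (x i)) := Finset.prod_pos fun i _ => hpos i
      rw [← h3, mul_comm] at hxdet
      exact (lt_of_mul_lt_mul_left hxdet hP.le).le
    · exact absurd hi (hpos i).ne'
  · have hcov : ∀ i, ∃ a ∈ t, dist (un (YY g (x i))) a < ε / 2 := by
      intro i
      have h3 : un (YY g (x i)) ∈ Set.Icc (fun _ => -1 : Fin (d + 1) → ℝ) (fun _ => 1) :=
        ⟨fun a => (abs_le.mp (abs_un_le _ (hpos i) a)).1, fun a => (abs_le.mp (abs_un_le _ (hpos i) a)).2⟩
      have h4 := ht0 h3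
      rw [Set.mem_iUnion₂] at h4
      obtain ⟨a, ha, hax⟩ := h4
      exact ⟨a, by rw [ht]; exact ht0fin.mem_toFinset.mpr ha, hax⟩
    choose a hat hax using hcov
    have hin : ∀ i, J i ∈ H i (a i) := by
      intro i
      simp only [H, Finset.mem_filter, Finset.mem_univ, true_and]
      exact ⟨x i, hxU i, hxr i, hax i⟩
    refine ⟨fun i => H i (a i), fun i => ?_, fun i j hj => ?_⟩
    · by_contra hcon
      push Not at hcon
      exact hJ i (Finset.mem_biUnion.mpr ⟨a i, Finset.mem_filter.mpr ⟨hat i, hcon⟩, hin i⟩)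
    · simp only [H, Finset.mem_filter, Finset.mem_univ, true_and] at hj
      obtain ⟨x', hx', hr', hd'⟩ := hj
      refine ⟨x', hx', hr', ?_⟩
      have h5 := dist_triangle (un (YY g x')) (a i) (un (YY g (x i)))
      rw [dist_comm (a i)] at h5
      have h6 := hax i
      linarith

end Pool.Agent.Helper76.Sel
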