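import Mathlib
import Pool.Agent.Helper76.Sel.Select2

set_option autoImplicit false

open Matrix Finset MeasureTheory

namespace Pool.Agent.Helper76.Sel

theorem inv_entry {n : Type} [Fintype n] [DecidableEq n] (u : n → n → ℝ) (hu : ∀ i a, |u i a| ≤ 1) (δ : ℝ)
    (hδ : 0 < δ) (hdet : δ ≤ (Matrix.of u).det ^ 2) (a b : n) :
    |(Matrix.of u)⁻¹ a b| ≤ (Fintype.card n).factorial / Real.sqrt δ := by
  have h0 : Real.sqrt δ ≤ |(Matrix.of u).det| := by
    rw [← Real.sqrt_sq_eq_abs]
    exact Real.sqrt_le_sqrt hdet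
  have hs : 0 < Real.sqrt δ := Real.sqrt_pos.mpr hδ
  have h1 : |(Matrix.of u).adjugate a b| ≤ (Fintype.card n).factorial := by
    rw [Matrix.adjugate_apply]
    have h2 := Matrix.det_le (A := (Matrix.of u).updateRow b (Pi.single a 1)) (abv := AbsoluteValue.abs) (x := (1 : ℝ))
      (by
        intro i j
        show |((Matrix.of u).updateRow b (Pi.single a 1)) i j| ≤ 1
        rw [Matrix.updateRow_apply]
        split_ifs
        · rw [Pi.single_apply]
          split_ifs <;> simp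
        · exact hu i j)
    simpa using h2
  rw [Matrix.inv_def, Ring.inverse_eq_inv', Matrix.smul_apply, smul_eq_mul, abs_mul, abs_inv]
  rw [div_eq_inv_mul]
  exact mul_le_mul (inv_anti₀ hs h0) h1 (abs_nonneg _) (by positivity)

theorem perturb {n : Type} [Fintype n] [DecidableEq n] (u u' : n → n → ℝ) (R ε : ℝ) (B : Matrix n n ℝ)
    (hB : B * Matrix.of u = 1) (hBR : ∀ a b, |B a b| ≤ R) (hR : 0 ≤ R) (hε : 0 ≤ ε)
    (hsmall : (Fintype.card n : ℝ) * (Fintype.card n * (ε * R)) ≤ 1 / 8)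
    (hu' : ∀ i a, |u' i a - u i a| ≤ ε) (w : n → ℝ) (hw1 : ∀ i, 1 ≤ w i) (hw2 : ∀ i, w i ≤ 2) :
    ∃ t : n → ℝ, (∀ i, 0 < t i) ∧ t ᵥ* (Matrix.of u') = w ᵥ* (Matrix.of u) := by
  set P : Matrix n n ℝ := (Matrix.of u' - Matrix.of u) * B with hP
  set θ : ℝ := Fintype.card n * (ε * R) with hθ
  have hθ0 : 0 ≤ θ := by positivity
  have hPe : ∀ i k, |P i k| ≤ θ := by
    intro i k
    rw [hP, Matrix.mul_apply]
    refine (Finset.abs_sum_le_sum_abs _ _).trans ?_
    calc ∑ j, |(Matrix.of u' - Matrix.of u) i j * B j k| ≤ ∑ j : n, ε * R := by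
          refine Finset.sum_le_sum fun j _ => ?_
          rw [abs_mul]
          exact mul_le_mul (hu' i j) (hBR j k) (abs_nonneg _) hε
      _ = θ := by simp [hθ]
  have hU : Matrix.of u' = (1 + P) * Matrix.of u := by
    rw [add_mul, one_mul, hP, mul_assoc, hB, mul_one]
    abel
  have hcard : ∀ k : n, (1 : ℝ) ≤ Fintype.card n := fun k => by
    exact_mod_cast Fintype.card_pos_iff.mpr ⟨k⟩
  have hdet : (1 + P).det ≠ 0 := by
    apply det_ne_zero_of_sum_row_lt_diag
    intro k
    have h1 : ∑ j ∈ univ.erase k, ‖(1 + P) k j‖ ≤ (Fintype.card n - 1) * θ := by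
      calc ∑ j ∈ univ.erase k, ‖(1 + P) k j‖ ≤ ∑ j ∈ univ.erase k, θ := by
            refine Finset.sum_le_sum fun j hj => ?_
            rw [Matrix.add_apply, Matrix.one_apply_ne (Finset.ne_of_mem_erase hj).symm, zero_add]
            exact hPe k j
        _ = _ := by
          rw [Finset.sum_const, Finset.card_erase_of_mem (Finset.mem_univ k), Finset.card_univ, nsmul_eq_mul,
            Nat.cast_sub (by exact_mod_cast hcard k)]
          simp
    have h2 : 1 - θ ≤ ‖(1 + P) k k‖ := by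
      rw [Matrix.add_apply, Matrix.one_apply_eq]
      have h3 := hPe k k
      have h4 := abs_le.mp h3
      rw [Real.norm_eq_abs]
      refine le_trans ?_ (le_abs_self _)
      linarith [h4.1]
    have h5 := hcard k
    nlinarith
  set t : n → ℝ := w ᵥ* (1 + P)⁻¹ with ht
  have ht1 : t ᵥ* (1 + P) = w := by
    rw [ht, Matrix.vecMul_vecMul, Matrix.nonsing_inv_mul _ (isUnit_iff_ne_zero.mpr hdet), Matrix.vecMul_one]
  have ht2 : ∀ k, t k + ∑ i, t i * P i k = w k := by
    intro k
    have := congrFun ht1 k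
    rw [Matrix.vecMul_add, Matrix.vecMul_one, Pi.add_apply] at this
    exact this
  have hs : ∀ k, |∑ i, t i * P i k| ≤ ‖t‖ / 8 := by
    intro k
    refine (Finset.abs_sum_le_sum_abs _ _).trans ?_
    calc ∑ i, |t i * P i k| ≤ ∑ i : n, ‖t‖ * θ := by
          refine Finset.sum_le_sum fun i _ => ?_
          rw [abs_mul]
          exact mul_le_mul (norm_le_pi_norm t i) (hPe i k) (abs_nonneg _) (norm_nonneg _)
      _ = ‖t‖ * (Fintype.card n * θ) := by simp; ring
      _ ≤ ‖t‖ * (1 / 8) := by gcongr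
      _ = _ := by ring
  have hn : ‖t‖ ≤ 2 + ‖t‖ / 8 := by
    rw [pi_norm_le_iff_of_nonneg (by positivity)]
    intro k
    have h1 := ht2 k
    have h2 := abs_le.mp (hs k)
    rw [Real.norm_eq_abs, abs_le]
    constructor <;> linarith [h2.1, h2.2, hw1 k, hw2 k]
  refine ⟨t, fun k => ?_, ?_⟩
  · have h1 := ht2 k
    have h2 := abs_le.mp (hs k)
    linarith [h2.1, h2.2, hw1 k]
  · rw [hU, ← Matrix.vecMul_vecMul, ht1]

variable {d : ℕ}

theorem mem_hull (g : Matrix (Fin (d + 1)) (Fin (d + 1)) ℝ) (hg : g.det ≠ 0) (x : Fin (d + 1) → Fin d → ℝ)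
    (hx : ∀ i, 0 < nsq (YY g (x i))) (t : Fin (d + 1) → ℝ) (ht : ∀ i, 0 < t i) (p : Fin (d + 1) → ℝ)
    (hp : p = t ᵥ* (Matrix.of fun i => un (YY g (x i)))) :
    (g⁻¹ *ᵥ p) 0 = ∑ i, t i * (Real.sqrt (nsq (YY g (x i))))⁻¹ ∧
    (fun k : Fin d => (g⁻¹ *ᵥ p) k.succ / (g⁻¹ *ᵥ p) 0) ∈ convexHull ℝ (Set.range x) := by
  set s : Fin (d + 1) → ℝ := fun i => t i * (Real.sqrt (nsq (YY g (x i))))⁻¹ with hs
  have hs0 : ∀ i, 0 < s i := fun i => mul_pos (ht i) (inv_pos.mpr (Real.sqrt_pos.mpr (hx i)))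
  have hq : g⁻¹ *ᵥ p = ∑ i, s i • zz (x i) := by
    have h1 : p = g *ᵥ (∑ i, s i • zz (x i)) := by
      rw [Matrix.mulVec_sum, hp]
      funext a
      rw [Finset.sum_apply]
      simp only [Matrix.vecMul, dotProduct, Matrix.of_apply]
      refine Finset.sum_congr rfl fun i _ => ?_
      rw [Matrix.mulVec_smul]
      simp only [un, Pi.smul_apply, smul_eq_mul, hs, YY]
      ring
    rw [h1, Matrix.mulVec_mulVec, Matrix.nonsing_inv_mul _ (isUnit_iff_ne_zero.mpr hg), Matrix.one_mulVec]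
  have h0 : (g⁻¹ *ᵥ p) 0 = ∑ i, s i := by
    rw [hq, Finset.sum_apply]
    simp [zz]
  refine ⟨h0, ?_⟩
  have hS : 0 < ∑ i, s i := Finset.sum_pos (fun i _ => hs0 i) ⟨0, Finset.mem_univ _⟩
  have h2 : (fun k : Fin d => (g⁻¹ *ᵥ p) k.succ / (g⁻¹ *ᵥ p) 0) = ∑ i, (s i / ∑ i, s i) • x i := by
    funext k
    rw [h0, hq, Finset.sum_apply, Finset.sum_apply, Finset.sum_div]
    refine Finset.sum_congr rfl fun i _ => ?_
    simp only [zz, Pi.smul_apply, Fin.cons_succ, smul_eq_mul]
    ring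
  rw [h2]
  refine (convex_convexHull ℝ _).sum_mem (fun i _ => (div_pos (hs0 i) hS).le) ?_
    (fun i _ => subset_convexHull ℝ _ ⟨i, rfl⟩)
  rw [← Finset.sum_div]
  exact div_self hS.ne'

/-- the determinant of the lifted points -/
theorem det_zz (X : Fin (d + 1) → Fin d → ℝ) :
    (Matrix.of fun i => zz (X i)).det = (Matrix.of fun (k a : Fin d) => X k.succ a - X 0 a).det := by
  let B : Matrix (Fin (d + 1)) (Fin (d + 1)) ℝ := Matrix.of fun i j => if i = 0 then zz (X 0) j else zz (X i) j - zz (X 0) j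
  have h1 : (Matrix.of fun i => zz (X i)).det = B.det := by
    refine Matrix.det_eq_of_forall_row_eq_smul_add_const (fun i => if i = 0 then 0 else 1) 0 (by simp) ?_
    intro i j
    by_cases hi : i = 0
    · subst hi
      simp [B]
    · simp [B, hi]
  rw [h1, Matrix.det_succ_column_zero, Fin.sum_univ_succ]
  have h2 : ∑ i : Fin d, (-1 : ℝ) ^ ((i.succ : Fin (d + 1)) : ℕ) * B i.succ 0 * (B.submatrix i.succ.succAbove Fin.succ).det = 0 := by
    refine Finset.sum_eq_zero fun i _ => ?_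
    have : B i.succ 0 = 0 := by simp [B, zz]
    rw [this]; ring
  rw [h2]
  have h3 : B 0 0 = 1 := by simp [B, zz]
  rw [h3]
  simp only [Fin.val_zero, pow_zero, one_mul, add_zero]
  congr 1

/-- a parallelepiped inside the convex hull of `X` -/
theorem box_hull (X : Fin (d + 1) → Fin d → ℝ) : ∃ E : Set (Fin d → ℝ), MeasurableSet E ∧
    E ⊆ convexHull ℝ (Set.range X) ∧
    ENNReal.ofReal (|(Matrix.of fun i => zz (X i)).det| * (1 / (d + 1)) ^ d) ≤ volume E := by
  set A : Matrix (Fin d) (Fin d) ℝ := Matrix.of fun (a k : Fin d) => X k.succ a - X 0 a with hA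
  set Q : Set (Fin d → ℝ) := Set.Icc (fun _ => 0) (fun _ => 1 / (d + 1)) with hQ
  have hcont : Continuous (Matrix.toLin' A) := LinearMap.continuous_of_finiteDimensional _
  refine ⟨(fun y => X 0 + y) '' ((Matrix.toLin' A) '' Q), ?_, ?_, ?_⟩
  · have : IsCompact ((fun y => X 0 + y) '' ((Matrix.toLin' A) '' Q)) := by
      refine IsCompact.image (IsCompact.image isCompact_Icc hcont) ?_
      exact continuous_const.add continuous_id
    exact this.measurableSet
  · rintro _ ⟨_, ⟨s, hs, rfl⟩, rfl⟩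
    have hs0 : ∀ k, 0 ≤ s k := fun k => hs.1 k
    have hs1 : ∀ k, s k ≤ 1 / (d + 1) := fun k => hs.2 k
    have hsum : ∑ k, s k ≤ 1 := by
      calc ∑ k, s k ≤ ∑ k : Fin d, (1 / (d + 1) : ℝ) := Finset.sum_le_sum fun k _ => hs1 k
        _ = d / (d + 1) := by simp [div_eq_mul_inv]
        _ ≤ 1 := by
          rw [div_le_one (by positivity)]
          linarith
    have he : (fun y => X 0 + y) (Matrix.toLin' A s) =
        ∑ i, (Fin.cons (1 - ∑ k, s k) s : Fin (d + 1) → ℝ) i • X i := by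
      rw [Fin.sum_univ_succ]
      simp only [Fin.cons_zero, Fin.cons_succ]
      funext a
      simp only [Pi.add_apply, Matrix.toLin'_apply, Matrix.mulVec, dotProduct, hA, Matrix.of_apply,
        Pi.smul_apply, smul_eq_mul, Finset.sum_apply]
      have : ∑ k, (X k.succ a - X 0 a) * s k = ∑ k, s k * X k.succ a - (∑ k, s k) * X 0 a := by
        rw [Finset.sum_mul, ← Finset.sum_sub_distrib]
        refine Finset.sum_congr rfl fun k _ => by ring
      rw [this]; ring
    rw [he]
    refine (convex_convexHull ℝ _).sum_mem (fun i _ => ?_) ?_ (fun i _ => subset_convexHull ℝ _ ⟨i, rfl⟩)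
    · refine Fin.cases ?_ (fun k => ?_) i
      · simpa using hsum
      · simpa using hs0 k
    · rw [Fin.sum_univ_succ]
      simp
  · rw [Set.image_add_left, measure_preimage_add, Measure.addHaar_image_linearMap, LinearMap.det_toLin', hQ,
      Real.volume_Icc_pi, det_zz]
    have h1 : (Matrix.of fun (k a : Fin d) => X k.succ a - X 0 a).det = A.det := by
      rw [← Matrix.det_transpose]
      rfl
    rw [h1, ENNReal.ofReal_mul (abs_nonneg _)]
    gcongr
    simp only [sub_zero, Finset.prod_const, Finset.card_univ, Fintype.card_fin]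
    rw [ENNReal.ofReal_pow (by positivity)]

theorem geom (d : ℕ) (r δ : ℝ) (hr : 0 < r) (hδ : 0 < δ) : ∃ ε v : ℝ, 0 < ε ∧ 0 < v ∧
    ∀ g : Matrix (Fin (d + 1)) (Fin (d + 1)) ℝ, |g.det| = 1 → ∀ x : Fin (d + 1) → Fin d → ℝ,
      (∀ i, r ^ 2 ≤ nsq (YY g (x i))) → (δ ≤ (Matrix.of fun i => un (YY g (x i))).det ^ 2) →
      ∃ E : Set (Fin d → ℝ), MeasurableSet E ∧ ENNReal.ofReal v ≤ volume E ∧
        ∀ x' : Fin (d + 1) → Fin d → ℝ, (∀ i, r ^ 2 ≤ nsq (YY g (x' i))) →
          (∀ i, dist (un (YY g (x' i))) (un (YY g (x i))) < ε) → E ⊆ convexHull ℝ (Set.range x') := by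
  have hsδ : 0 < Real.sqrt δ := Real.sqrt_pos.mpr hδ
  set R : ℝ := (Fintype.card (Fin (d + 1))).factorial / Real.sqrt δ with hR
  have hR0 : 0 < R := by rw [hR]; positivity
  set ε : ℝ := 1 / (8 * (d + 1) ^ 2 * R) with hε
  have hε0 : 0 < ε := by positivity
  set v : ℝ := ((r / (d + 2)) ^ (d + 1) * Real.sqrt δ) * (1 / (d + 1)) ^ d with hv
  refine ⟨ε, v, hε0, by positivity, ?_⟩
  intro g hg x hxr hdet
  have hg0 : g.det ≠ 0 := by
    intro h; rw [h] at hg; simp at hg
  have hxpos : ∀ i, 0 < nsq (YY g (x i)) := fun i => lt_of_lt_of_le (by positivity) (hxr i)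
  set u : Fin (d + 1) → Fin (d + 1) → ℝ := fun i => un (YY g (x i)) with hu
  have hu1 : ∀ i a, |u i a| ≤ 1 := fun i a => abs_un_le _ (hxpos i) a
  have hudet : (Matrix.of u).det ≠ 0 := by
    intro h
    rw [h] at hdet
    norm_num at hdet
    linarith
  -- weights
  let w : Fin (d + 1) → Fin (d + 1) → ℝ := fun j i => if i = j then 2 else 1
  have hw1 : ∀ j i, 1 ≤ w j i := by
    intro j i; simp only [w]; split_ifs <;> norm_num
  have hw2 : ∀ j i, w j i ≤ 2 := by
    intro j i; simp only [w]; split_ifs <;> norm_num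
  let p : Fin (d + 1) → Fin (d + 1) → ℝ := fun j => w j ᵥ* (Matrix.of u)
  let q : Fin (d + 1) → Fin (d + 1) → ℝ := fun j => g⁻¹ *ᵥ p j
  let X : Fin (d + 1) → Fin d → ℝ := fun j k => q j k.succ / q j 0
  -- the base heights
  have hq0 : ∀ j, q j 0 = ∑ i, w j i * (Real.sqrt (nsq (YY g (x i))))⁻¹ := by
    intro j
    exact (mem_hull g hg0 x hxpos (w j) (fun i => lt_of_lt_of_le one_pos (hw1 j i)) (p j) rfl).1
  have hsx : ∀ i, (Real.sqrt (nsq (YY g (x i))))⁻¹ ≤ 1 / r := by
    intro i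
    rw [one_div]
    exact inv_anti₀ hr (Real.le_sqrt_of_sq_le (hxr i))
  have hsx0 : ∀ i, 0 < (Real.sqrt (nsq (YY g (x i))))⁻¹ := fun i => inv_pos.mpr (Real.sqrt_pos.mpr (hxpos i))
  have hq0pos : ∀ j, 0 < q j 0 := by
    intro j
    rw [hq0]
    exact Finset.sum_pos (fun i _ => mul_pos (lt_of_lt_of_le one_pos (hw1 j i)) (hsx0 i)) ⟨0, Finset.mem_univ _⟩
  have hq0le : ∀ j, q j 0 ≤ (d + 2) / r := by
    intro j
    rw [hq0]
    calc ∑ i, w j i * (Real.sqrt (nsq (YY g (x i))))⁻¹ ≤ ∑ i, w j i * (1 / r) := by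
          refine Finset.sum_le_sum fun i _ => ?_
          exact mul_le_mul_of_nonneg_left (hsx i) (le_trans zero_le_one (hw1 j i))
      _ = (∑ i, w j i) * (1 / r) := by rw [Finset.sum_mul]
      _ = (d + 2) * (1 / r) := by
        congr 1
        have : ∀ i, w j i = 1 + if i = j then 1 else 0 := by
          intro i; simp only [w]; split_ifs <;> norm_num
        rw [Finset.sum_congr rfl fun i _ => this i, Finset.sum_add_distrib]
        simp
        ring
      _ = _ := by ring
  -- determinants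
  have hdetW : (Matrix.of w).det = d + 2 := by
    have h1 : Matrix.of w = 1 + Matrix.replicateCol (Fin 1) (fun _ : Fin (d + 1) => (1 : ℝ)) *
        Matrix.replicateRow (Fin 1) (fun _ : Fin (d + 1) => (1 : ℝ)) := by
      ext j i
      simp only [w, Matrix.of_apply, Matrix.add_apply, Matrix.mul_apply, Matrix.replicateCol_apply,
        Matrix.replicateRow_apply, Matrix.one_apply, Finset.univ_unique, Finset.sum_const,
        Finset.card_singleton, one_smul]
      by_cases h : i = j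
      · subst h; norm_num
      · rw [if_neg h, if_neg (Ne.symm h)]; norm_num
    rw [h1]
    have h2 := Matrix.det_one_add_replicateCol_mul_replicateRow (ι := Fin 1)
      (fun _ : Fin (d + 1) => (1 : ℝ)) (fun _ : Fin (d + 1) => (1 : ℝ))
    refine h2.trans ?_
    simp [dotProduct]
    ring
  have hdetQ : |(Matrix.of q).det| = (d + 2) * |(Matrix.of u).det| := by
    have h1 : Matrix.of q = (Matrix.of w * Matrix.of u) * (g⁻¹)ᵀ := by
      ext j a
      simp only [q, p, Matrix.of_apply, Matrix.mulVec, dotProduct, Matrix.mul_apply, Matrix.vecMul,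
        Matrix.transpose_apply]
      refine Finset.sum_congr rfl fun b _ => by ring
    rw [h1, Matrix.det_mul, Matrix.det_mul, hdetW, Matrix.det_transpose, Matrix.det_nonsing_inv,
      Ring.inverse_eq_inv', abs_mul, abs_mul, abs_inv, hg, inv_one, mul_one, abs_of_pos (by positivity)]
  have hdetX : (∏ j, q j 0) * |(Matrix.of fun i => zz (X i)).det| = (d + 2) * |(Matrix.of u).det| := by
    have h1 : Matrix.of q = Matrix.of fun i j => q i 0 * (Matrix.of fun i => zz (X i)) i j := by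
      ext i j
      simp only [Matrix.of_apply]
      refine Fin.cases ?_ (fun k => ?_) j
      · simp [zz]
      · simp only [zz, Fin.cons_succ, X]
        field_simp [(hq0pos i).ne']
    rw [← hdetQ, h1, Matrix.det_mul_column, abs_mul, abs_of_pos (Finset.prod_pos fun j _ => hq0pos j)]
  have hlow : (r / (d + 2)) ^ (d + 1) * Real.sqrt δ ≤ |(Matrix.of fun i => zz (X i)).det| := by
    have h1 : Real.sqrt δ ≤ |(Matrix.of u).det| := by
      rw [← Real.sqrt_sq_eq_abs]
      exact Real.sqrt_le_sqrt hdet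
    have h2 : ∏ j, q j 0 ≤ ((d + 2) / r) ^ (d + 1) := by
      calc ∏ j, q j 0 ≤ ∏ j : Fin (d + 1), ((d + 2) / r : ℝ) :=
            Finset.prod_le_prod (fun j _ => (hq0pos j).le) fun j _ => hq0le j
        _ = _ := by rw [Finset.prod_const, Finset.card_univ, Fintype.card_fin]
    have h3 : Real.sqrt δ ≤ ((d + 2) / r) ^ (d + 1) * |(Matrix.of fun i => zz (X i)).det| := by
      calc Real.sqrt δ ≤ |(Matrix.of u).det| := h1
        _ ≤ (d + 2) * |(Matrix.of u).det| := by
          have := abs_nonneg (Matrix.of u).det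
          nlinarith [(Nat.cast_nonneg d : (0 : ℝ) ≤ d)]
        _ = (∏ j, q j 0) * |(Matrix.of fun i => zz (X i)).det| := hdetX.symm
        _ ≤ _ := mul_le_mul_of_nonneg_right h2 (abs_nonneg _)
    calc (r / (d + 2)) ^ (d + 1) * Real.sqrt δ
        ≤ (r / (d + 2)) ^ (d + 1) * (((d + 2) / r) ^ (d + 1) * |(Matrix.of fun i => zz (X i)).det|) :=
          mul_le_mul_of_nonneg_left h3 (by positivity)
      _ = ((r / (d + 2)) * ((d + 2) / r)) ^ (d + 1) * |(Matrix.of fun i => zz (X i)).det| := by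
          rw [mul_pow]; ring
      _ = |(Matrix.of fun i => zz (X i)).det| := by
          have : (r / (d + 2)) * ((d + 2) / r) = 1 := by field_simp
          rw [this]; simp
  obtain ⟨E, hEm, hEX, hEv⟩ := box_hull X
  refine ⟨E, hEm, le_trans (ENNReal.ofReal_le_ofReal ?_) hEv, ?_⟩
  · rw [hv]
    exact mul_le_mul_of_nonneg_right hlow (by positivity)
  · intro x' hx'r hx'd
    refine hEX.trans (convexHull_min ?_ (convex_convexHull ℝ _))
    rintro _ ⟨j, rfl⟩
    have hx'pos : ∀ i, 0 < nsq (YY g (x' i)) := fun i => lt_of_lt_of_le (by positivity) (hx'r i)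
    obtain ⟨t, ht0, ht⟩ := perturb u (fun i => un (YY g (x' i))) R ε (Matrix.of u)⁻¹
      (Matrix.nonsing_inv_mul _ (isUnit_iff_ne_zero.mpr hudet)) (fun a b => inv_entry u hu1 δ hδ hdet a b) hR0.le
      hε0.le (by
        rw [Fintype.card_fin, hε]
        push_cast
        apply le_of_eq
        field_simp) (fun i a => by
        have h1 := norm_le_pi_norm (un (YY g (x' i)) - un (YY g (x i))) a
        rw [← dist_eq_norm] at h1
        exact h1.trans (hx'd i).le) (w j) (hw1 j) (hw2 j)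
    exact (mem_hull g hg0 x' hx'pos t ht0 (p j) ht.symm).2

end Pool.Agent.Helper76.Sel
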